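import Pool.Agent.Y188.CN.Sm

/-!
The surface is connected.
-/

set_option autoImplicit false

open Filter Topology

namespace Pool.Agent.Y188.CN

open Pool.Agent.TH144.CN

/-! ### Cyclic covers of degree four -/

lemma nhds_le_pow (z₀ : ℂ) : 𝓝 (z₀ ^ 4) ≤ map (fun z : ℂ => z ^ 4) (𝓝 z₀) := by
  have han : AnalyticAt ℂ (fun z : ℂ => z ^ 4) z₀ := analyticAt_id.pow 4
  rcases han.eventually_constant_or_nhds_le_map_nhds with h | h
  · exfalso
    have h1 : {z : ℂ | z ^ 4 = z₀ ^ 4}.Infinite := infinite_of_mem_nhds z₀ h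
    have h2 : (Polynomial.X ^ 4 - Polynomial.C (z₀ ^ 4) : Polynomial ℂ) ≠ 0 :=
      (Polynomial.monic_X_pow_sub_C _ (by norm_num)).ne_zero
    refine h1 ((Polynomial.finite_setOfPred_isRoot h2).subset fun z hz => ?_)
    change Polynomial.IsRoot _ z
    have hz' : z ^ 4 = z₀ ^ 4 := hz
    rw [Polynomial.IsRoot.def, Polynomial.eval_sub, Polynomial.eval_pow, Polynomial.eval_X,
      Polynomial.eval_C, hz', sub_self]
  · exact h

theorem cover {X : Type} [MetricSpace X] {M : Set X} (hM : IsConnected M) {Q : X → ℂ}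
    (hQ : Continuous Q) {x₀ : X} (hx₀ : x₀ ∈ M) (h0 : Q x₀ = 0) :
    IsConnected {p : X × ℂ | p.1 ∈ M ∧ p.2 ^ 4 = Q p.1} := by
  obtain ⟨N, hN⟩ : ∃ N : Set (X × ℂ), N = {p : X × ℂ | p.1 ∈ M ∧ p.2 ^ 4 = Q p.1} := ⟨_, rfl⟩
  rw [← hN]
  have hmem : ∀ p : X × ℂ, p ∈ N ↔ p.1 ∈ M ∧ p.2 ^ 4 = Q p.1 := by
    intro p
    rw [hN]
    rfl
  let π : N → M := fun p => ⟨p.1.1, ((hmem _).1 p.2).1⟩
  have hopen : IsOpenMap π := by
    intro U hU
    rw [isOpen_iff_mem_nhds]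
    rintro _ ⟨p, hpU, rfl⟩
    have hp := (hmem _).1 p.2
    obtain ⟨V, hV, hVU⟩ := (mem_nhds_subtype N p U).1 (hU.mem_nhds hpU)
    have hV' : V ∈ 𝓝 p.1.1 ×ˢ 𝓝 p.1.2 := by rwa [← nhds_prod_eq]
    obtain ⟨A, hA, B, hB, hAB⟩ := mem_prod_iff.1 hV'
    have h1 : (fun z : ℂ => z ^ 4) '' B ∈ 𝓝 (p.1.2 ^ 4) := nhds_le_pow _ (image_mem_map hB)
    rw [hp.2] at h1
    have h2 : Q ⁻¹' ((fun z : ℂ => z ^ 4) '' B) ∈ 𝓝 p.1.1 := hQ.continuousAt h1
    have h3 : Subtype.val ⁻¹' (A ∩ Q ⁻¹' ((fun z : ℂ => z ^ 4) '' B)) ∈ 𝓝 (π p) :=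
      continuous_subtype_val.continuousAt (inter_mem hA h2)
    refine mem_of_superset h3 ?_
    rintro ⟨x, hx⟩ ⟨hxA, z, hzB, hz⟩
    refine ⟨⟨(x, z), (hmem _).2 ⟨hx, hz⟩⟩, hVU (hAB ⟨hxA, hzB⟩), rfl⟩
  have hclosed : IsClosedMap π := by
    intro C hC
    refine IsSeqClosed.isClosed ?_
    intro u x hu hux
    choose v hvC hv using hu
    have hux' : Tendsto (fun n => (u n).1) atTop (𝓝 x.1) :=
      (continuous_subtype_val.tendsto x).comp hux
    have hQu : Tendsto (fun n => Q (u n).1) atTop (𝓝 (Q x.1)) := (hQ.tendsto x.1).comp hux'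
    have hv4 : ∀ n, (v n).1.2 ^ 4 = Q (u n).1 := by
      intro n
      rw [((hmem _).1 (v n).2).2, ← hv n]
    obtain ⟨R, hR⟩ := (Metric.isBounded_range_of_tendsto _ hQu).exists_norm_le
    have hb : ∀ n, (v n).1.2 ∈ Metric.closedBall (0 : ℂ) (max 1 R) := by
      intro n
      rw [mem_closedBall_zero_iff]
      have h1 : ‖(v n).1.2‖ ^ 4 ≤ R := by
        rw [← norm_pow, hv4]
        exact hR _ ⟨n, rfl⟩
      by_contra hlt
      push Not at hlt
      have h2 := (max_lt_iff.1 hlt).1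
      have h3 := (max_lt_iff.1 hlt).2
      have h4 : ‖(v n).1.2‖ ≤ ‖(v n).1.2‖ ^ 4 := le_self_pow₀ h2.le (by norm_num)
      linarith
    obtain ⟨z, -, φ, hφ, hz⟩ := tendsto_subseq_of_bounded Metric.isBounded_closedBall hb
    have hz4 : z ^ 4 = Q x.1 := by
      have h1 : Tendsto (fun n => ((v (φ n)).1.2) ^ 4) atTop (𝓝 (z ^ 4)) := hz.pow 4
      have h2 : Tendsto (fun n => ((v (φ n)).1.2) ^ 4) atTop (𝓝 (Q x.1)) := by
        have := hQu.comp hφ.tendsto_atTop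
        refine this.congr fun n => ?_
        exact (hv4 (φ n)).symm
      exact tendsto_nhds_unique h1 h2
    refine ⟨⟨(x.1, z), (hmem _).2 ⟨x.2, hz4⟩⟩, ?_, rfl⟩
    refine hC.mem_of_tendsto (b := atTop) (f := fun n => v (φ n)) ?_ (Eventually.of_forall
      fun n => hvC (φ n))
    rw [tendsto_subtype_rng]
    have h1 : Tendsto (fun n => (v (φ n)).1.1) atTop (𝓝 x.1) := by
      have := hux'.comp hφ.tendsto_atTop
      refine this.congr fun n => ?_
      change (u (φ n)).1 = _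
      rw [← hv (φ n)]
    exact h1.prodMk_nhds hz
  have hMs : PreconnectedSpace M := Subtype.preconnectedSpace hM.isPreconnected
  have hp₀ : (x₀, (0 : ℂ)) ∈ N := (hmem _).2 ⟨hx₀, by rw [h0]; norm_num⟩
  have hfib : ∀ s : Set N, IsClopen s → s.Nonempty → (⟨(x₀, 0), hp₀⟩ : N) ∈ s := by
    intro s hs hne
    have h1 : IsClopen (π '' s) := ⟨hclosed _ hs.1, hopen _ hs.2⟩
    have h2 : π '' s = Set.univ := (preconnectedSpace_iff_clopen.1 hMs _ h1).resolve_left
      (hne.image π).ne_empty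
    have h3 : (⟨x₀, hx₀⟩ : M) ∈ π '' s := by rw [h2]; trivial
    obtain ⟨q, hq, hq2⟩ := h3
    have h4 : q.1.1 = x₀ := congrArg Subtype.val hq2
    have h5 : q.1.2 = 0 := by
      have := ((hmem _).1 q.2).2
      rw [h4, h0] at this
      exact pow_eq_zero_iff (by norm_num) |>.1 this
    have h6 : q = ⟨(x₀, 0), hp₀⟩ := Subtype.ext (Prod.ext h4 h5)
    rwa [h6] at hq
  refine ⟨⟨_, hp₀⟩, ?_⟩
  rw [isPreconnected_iff_preconnectedSpace, preconnectedSpace_iff_clopen]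
  intro s hs
  by_contra hcon
  push Not at hcon
  obtain ⟨h1, h2⟩ := hcon
  have h3 := hfib s hs h1
  have h4 := hfib sᶜ hs.compl (Set.nonempty_compl.2 h2)
  exact h4 h3

/-! ### The complement of the base locus of the pencil -/

lemma line_poly (x y : Fin 3 → ℂ) (γ : ℂ) : ∃ pA pG : Polynomial ℂ,
    (∀ t : ℂ, pA.eval t = Af (fun i => x i + t * (y i - x i))) ∧
    (∀ t : ℂ, pG.eval t = Gf γ (fun i => x i + t * (y i - x i))) := by
  obtain ⟨l, hl⟩ : ∃ l : Fin 3 → Polynomial ℂ,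
      ∀ i t, (l i).eval t = x i + t * (y i - x i) := by
    refine ⟨fun i => Polynomial.C (x i) + Polynomial.X * Polynomial.C (y i - x i), fun i t => ?_⟩
    simp
  refine ⟨l 0 ^ 240 * l 2 ^ 16 + l 1 ^ 256 + l 0 ^ 16 * l 1 ^ 240,
    l 0 ^ 256 + l 1 ^ 256 + Polynomial.C γ * l 2 ^ 256, fun t => ?_, fun t => ?_⟩
  · simp only [Polynomial.eval_add, Polynomial.eval_mul, Polynomial.eval_pow, hl, Af]
  · simp only [Polynomial.eval_add, Polynomial.eval_mul, Polynomial.eval_pow,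
      Polynomial.eval_C, hl, Gf]

/-- the complement of the base locus is connected -/
theorem isConnected_compl_base (γ : ℂ) :
    IsConnected {x : Fin 3 → ℂ | ¬ (Af x = 0 ∧ Gf γ x = 0)} := by
  have hne : (fun i => if i = 1 then (1 : ℂ) else 0 : Fin 3 → ℂ) ∈
      {x : Fin 3 → ℂ | ¬ (Af x = 0 ∧ Gf γ x = 0)} := by
    rintro ⟨h, -⟩
    simp [Af] at h
  refine IsPathConnected.isConnected ⟨_, hne, ?_⟩
  have key : ∀ {x y : Fin 3 → ℂ}, x ∈ {x : Fin 3 → ℂ | ¬ (Af x = 0 ∧ Gf γ x = 0)} →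
      y ∈ {x : Fin 3 → ℂ | ¬ (Af x = 0 ∧ Gf γ x = 0)} →
      JoinedIn {x : Fin 3 → ℂ | ¬ (Af x = 0 ∧ Gf γ x = 0)} x y := by
    intro x y hx hy
    obtain ⟨pA, pG, hpA, hpG⟩ := line_poly x y γ
    have hline0 : (fun i => x i + (0 : ℂ) * (y i - x i)) = x := by
      funext i
      ring
    have hline1 : (fun i => x i + (1 : ℂ) * (y i - x i)) = y := by
      funext i
      ring
    have hfin : {t : ℂ | pA.eval t = 0 ∧ pG.eval t = 0}.Finite := by
      by_cases h1 : Af x = 0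
      · have h2 : Gf γ x ≠ 0 := fun h2 => hx ⟨h1, h2⟩
        have h3 : pG ≠ 0 := by
          rintro rfl
          have := hpG 0
          rw [hline0, Polynomial.eval_zero] at this
          exact h2 this.symm
        exact (Polynomial.finite_setOfPred_isRoot h3).subset fun t ht => ht.2
      · have h3 : pA ≠ 0 := by
          rintro rfl
          have := hpA 0
          rw [hline0, Polynomial.eval_zero] at this
          exact h1 this.symm
        exact (Polynomial.finite_setOfPred_isRoot h3).subset fun t ht => ht.1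
    have hpc : IsPathConnected {t : ℂ | pA.eval t = 0 ∧ pG.eval t = 0}ᶜ :=
      hfin.countable.isPathConnected_compl_of_one_lt_rank (by
        rw [Complex.rank_real_complex]
        exact Cardinal.one_lt_two)
    have hcont : Continuous fun t : ℂ => (fun i => x i + t * (y i - x i) : Fin 3 → ℂ) := by
      fun_prop
    have himg := hpc.image hcont
    have m0 : x ∈ (fun t : ℂ => (fun i => x i + t * (y i - x i) : Fin 3 → ℂ)) ''
        {t : ℂ | pA.eval t = 0 ∧ pG.eval t = 0}ᶜ := by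
      refine ⟨0, ?_, hline0⟩
      rintro ⟨h1, h2⟩
      rw [hpA, hline0] at h1
      rw [hpG, hline0] at h2
      exact hx ⟨h1, h2⟩
    have m1 : y ∈ (fun t : ℂ => (fun i => x i + t * (y i - x i) : Fin 3 → ℂ)) ''
        {t : ℂ | pA.eval t = 0 ∧ pG.eval t = 0}ᶜ := by
      refine ⟨1, ?_, hline1⟩
      rintro ⟨h1, h2⟩
      rw [hpA, hline1] at h1
      rw [hpG, hline1] at h2
      exact hy ⟨h1, h2⟩
    refine (himg.joinedIn x m0 y m1).mono ?_
    rintro _ ⟨t, ht, rfl⟩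
    rintro ⟨h1, h2⟩
    exact ht ⟨by rw [hpA]; exact h1, by rw [hpG]; exact h2⟩
  intro y hy
  exact key hne hy

/-! ### The generators of the pencil are submersive at the base points -/

lemma map_nhds_base {γ : ℂ} (hγ : γ ≠ 0)
    (hγ2 : ∀ v : ℂ, 15 * v ^ 17 + 14 * v ^ 16 + 16 * v + 15 = 0 →
      γ * (v ^ 15 * (1 + v)) ^ 16 ≠ -(1 + v ^ 16)) {x : Fin 3 → ℂ} (hx : x ≠ 0)
    (hA : Af x = 0) (hG : Gf γ x = 0) :
    map (fun x => (Af x, Gf γ x)) (𝓝 x) = 𝓝 (Af x, Gf γ x) := by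
  have h0 : HasStrictFDerivAt (fun x : Fin 3 → ℂ => x 0)
      (ContinuousLinearMap.proj (R := ℂ) (φ := fun _ : Fin 3 => ℂ) 0) x :=
    (ContinuousLinearMap.proj (R := ℂ) (φ := fun _ : Fin 3 => ℂ) 0).hasStrictFDerivAt
  have h1 : HasStrictFDerivAt (fun x : Fin 3 → ℂ => x 1)
      (ContinuousLinearMap.proj (R := ℂ) (φ := fun _ : Fin 3 => ℂ) 1) x :=
    (ContinuousLinearMap.proj (R := ℂ) (φ := fun _ : Fin 3 => ℂ) 1).hasStrictFDerivAt
  have h2 : HasStrictFDerivAt (fun x : Fin 3 → ℂ => x 2)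
      (ContinuousLinearMap.proj (R := ℂ) (φ := fun _ : Fin 3 => ℂ) 2) x :=
    (ContinuousLinearMap.proj (R := ℂ) (φ := fun _ : Fin 3 => ℂ) 2).hasStrictFDerivAt
  have hAd := (((h0.pow 240).mul (h2.pow 16)).add (h1.pow 256)).add ((h0.pow 16).mul (h1.pow 240))
  have hGd := ((h0.pow 256).add (h1.pow 256)).add ((h2.pow 256).const_mul γ)
  have hd := hAd.prodMk hGd
  refine hd.map_nhds_eq_of_surj ?_
  by_contra hne
  obtain ⟨f, hf0, hf⟩ := Submodule.exists_le_ker_of_lt_top _ (lt_top_iff_ne_top.2 hne)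
  obtain ⟨p, hp⟩ : ∃ p, p = f (1, 0) := ⟨_, rfl⟩
  obtain ⟨q, hq⟩ : ∃ q, q = f (0, 1) := ⟨_, rfl⟩
  have hfpq : ∀ u v : ℂ, f (u, v) = p * u + q * v := by
    intro u v
    have e : (u, v) = u • ((1 : ℂ), (0 : ℂ)) + v • ((0 : ℂ), (1 : ℂ)) := by
      ext <;> simp
    rw [e, map_add, map_smul, map_smul, ← hp, ← hq, smul_eq_mul, smul_eq_mul]
    ring
  have hpq : p ≠ 0 ∨ q ≠ 0 := by
    by_contra hcon
    push Not at hcon
    apply hf0
    refine LinearMap.ext fun z => ?_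
    obtain ⟨u, v⟩ := z
    rw [hfpq, hcon.1, hcon.2]
    simp
  have hk : ∀ h : Fin 3 → ℂ, p * ((240 * x 0 ^ 239 * x 2 ^ 16 + 16 * x 0 ^ 15 * x 1 ^ 240) * h 0 +
        (256 * x 1 ^ 255 + 240 * x 0 ^ 16 * x 1 ^ 239) * h 1 + 16 * x 0 ^ 240 * x 2 ^ 15 * h 2) +
      q * (256 * x 0 ^ 255 * h 0 + 256 * x 1 ^ 255 * h 1 + 256 * γ * x 2 ^ 255 * h 2) = 0 := by
    intro h
    have h3 := hf (LinearMap.mem_range_self _ h)
    rw [LinearMap.mem_ker] at h3
    rw [← h3]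
    change _ = f (_, _)
    rw [hfpq]
    simp
    ring
  have hcase : x 0 ^ 16 = 0 ∧ x 1 ^ 16 = 0 ∧ x 2 ^ 16 = 0 := by
    unfold Af at hA
    unfold Gf at hG
    refine transversal hγ hγ2 (p := p) (q := q) hpq ?_ ?_ ?_ ?_
    · linear_combination hA
    · linear_combination hG
    · have := hk ![x 0, 0, 0]
      simp at this
      linear_combination this / 16
    · have := hk ![0, x 1, 0]
      simp at this
      linear_combination this / 16
  obtain ⟨h0, h1, h2⟩ := hcase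
  apply hx
  funext i
  fin_cases i
  · exact pow_eq_zero_iff (by norm_num) |>.1 h0
  · exact pow_eq_zero_iff (by norm_num) |>.1 h1
  · exact pow_eq_zero_iff (by norm_num) |>.1 h2

/-! ### Connectedness -/

/-- the parametrisation of the part of the cone away from the base points -/
def par (γ : ℂ) (p : ((Fin 3 → ℂ) × ℂ) × ℂ) : (Fin 3 → ℂ) × (Fin 3 → ℂ) :=
  (![2 * p.2 * Gf γ p.1.1, -(p.2 * Af p.1.1), p.2 * p.1.2], p.1.1)

theorem connected {γ : ℂ} (hγ : γ ≠ 0)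
    (hγ2 : ∀ v : ℂ, 15 * v ^ 17 + 14 * v ^ 16 + 16 * v + 15 = 0 →
      γ * (v ^ 15 * (1 + v)) ^ 16 ≠ -(1 + v ^ 16)) : (Xs γ).Connected := by
  have hQ : Continuous fun x : Fin 3 → ℂ => -(Af x ^ 4 + 16 * Gf γ x ^ 4) := by
    have h1 := Af_cont
    have h2 := Gf_cont γ
    fun_prop
  obtain ⟨c, hc⟩ := IsAlgClosed.exists_pow_nat_eq (-1 / 16 : ℂ) (n := 4) (by norm_num)
  obtain ⟨y, hy⟩ := IsAlgClosed.exists_pow_nat_eq ((c - 1) / γ) (n := 256) (by norm_num)
  have hA0 : Af ![0, 1, y] = 1 := by simp [Af]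
  have hG0 : Gf γ ![0, 1, y] = c := by
    simp only [Gf, Matrix.cons_val_zero, Matrix.cons_val_one, Matrix.cons_val_two,
      Matrix.tail_cons, Matrix.head_cons]
    rw [hy]
    field_simp
    ring
  have hN := cover (isConnected_compl_base γ) hQ (x₀ := ![0, 1, y])
    (fun h => by rw [hA0] at h; exact one_ne_zero h.1) (by rw [hA0, hG0, hc]; norm_num)
  have hC : IsConnected ({0}ᶜ : Set ℂ) := isConnected_compl_singleton_of_one_lt_rank (by
    rw [Complex.rank_real_complex]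
    exact Cardinal.one_lt_two) 0
  have hpar : Continuous (par γ) := by
    have h1 := Af_cont
    have h2 := Gf_cont γ
    unfold par
    refine Continuous.prodMk ?_ (by fun_prop)
    refine continuous_pi fun i => ?_
    fin_cases i
    · change Continuous fun p : ((Fin 3 → ℂ) × ℂ) × ℂ => 2 * p.2 * Gf γ p.1.1
      fun_prop
    · change Continuous fun p : ((Fin 3 → ℂ) × ℂ) × ℂ => -(p.2 * Af p.1.1)
      fun_prop
    · change Continuous fun p : ((Fin 3 → ℂ) × ℂ) × ℂ => p.2 * p.1.2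
      fun_prop
  have himg := (hN.prod hC).image (par γ) hpar.continuousOn
  -- points away from the base locus
  have hgood : ∀ b x : Fin 3 → ℂ, (Xs γ).Mem b x → ¬ (Af x = 0 ∧ Gf γ x = 0) →
      (b, x) ∈ par γ '' ({p : (Fin 3 → ℂ) × ℂ | p.1 ∈ {x : Fin 3 → ℂ | ¬ (Af x = 0 ∧ Gf γ x = 0)} ∧
        p.2 ^ 4 = -(Af p.1 ^ 4 + 16 * Gf γ p.1 ^ 4)} ×ˢ ({0}ᶜ : Set ℂ)) := by
    intro b x hbx hx
    obtain ⟨hb, hx0, hE, hF⟩ := mem_Xs.1 hbx
    obtain ⟨τ, hτ0, hτ1⟩ : ∃ τ : ℂ, b 0 = 2 * τ * Gf γ x ∧ b 1 = -(τ * Af x) := by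
      by_cases hG : Gf γ x = 0
      · have hA : Af x ≠ 0 := fun hA => hx ⟨hA, hG⟩
        have hb0 : b 0 = 0 := by
          rw [hG, mul_zero, add_zero] at hF
          exact (mul_eq_zero.1 hF).resolve_right hA
        refine ⟨-b 1 / Af x, by rw [hG, hb0, mul_zero], ?_⟩
        field_simp
      · refine ⟨b 0 / (2 * Gf γ x), ?_, ?_⟩
        · field_simp
        · field_simp
          linear_combination hF
    have hτ : τ ≠ 0 := by
      rintro rfl
      have h0 : b 0 = 0 := by rw [hτ0]; ring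
      have h1 : b 1 = 0 := by rw [hτ1]; ring
      rw [h0, h1] at hE
      have h3 : b 2 = 0 := by simpa using hE
      apply hb
      funext i
      fin_cases i
      · exact h0
      · exact h1
      · exact h3
    refine ⟨((x, b 2 / τ), τ), ⟨⟨hx, ?_⟩, hτ⟩, ?_⟩
    · change (b 2 / τ) ^ 4 = -(Af x ^ 4 + 16 * Gf γ x ^ 4)
      rw [hτ0, hτ1] at hE
      rw [div_pow, div_eq_iff (pow_ne_zero _ hτ)]
      linear_combination hE
    · refine Prod.ext ?_ rfl
      funext i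
      fin_cases i
      · exact hτ0.symm
      · exact hτ1.symm
      · change τ * (b 2 / τ) = b 2
        field_simp
  refine himg.subset_closure ?_ ?_
  · rintro _ ⟨⟨⟨x, z⟩, τ⟩, ⟨⟨hx, hz⟩, hτ⟩, rfl⟩
    change (Xs γ).Mem ![2 * τ * Gf γ x, -(τ * Af x), τ * z] x
    have hτ' : τ ≠ 0 := hτ
    have hz' : z ^ 4 = -(Af x ^ 4 + 16 * Gf γ x ^ 4) := hz
    refine mem_Xs.2 ⟨fun h => ?_, fun h => ?_, ?_, ?_⟩
    · apply hx
      have e0 : 2 * τ * Gf γ x = 0 := congrFun h 0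
      have e1 : -(τ * Af x) = 0 := congrFun h 1
      constructor
      · exact (mul_eq_zero.1 (neg_eq_zero.1 e1)).resolve_left hτ'
      · exact (mul_eq_zero.1 e0).resolve_left (mul_ne_zero two_ne_zero hτ')
    · apply hx
      rw [h]
      constructor
      · simp [Af]
      · simp [Gf]
    · change (2 * τ * Gf γ x) ^ 4 + (-(τ * Af x)) ^ 4 + (τ * z) ^ 4 = 0
      linear_combination τ ^ 4 * hz'
    · change (2 * τ * Gf γ x) * Af x + 2 * (-(τ * Af x)) * Gf γ x = 0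
      ring
  · rintro ⟨b, x⟩ hbx
    have hbx' : (Xs γ).Mem b x := hbx
    by_cases hx : Af x = 0 ∧ Gf γ x = 0
    swap
    · exact subset_closure (hgood b x hbx' hx)
    obtain ⟨hA, hG⟩ := hx
    obtain ⟨hb, hx0, hE, hF⟩ := mem_Xs.1 hbx'
    have hmap := map_nhds_base hγ hγ2 hx0 hA hG
    rw [hA, hG] at hmap
    have hb01 : ¬ (b 0 = 0 ∧ b 1 = 0) := by
      rintro ⟨h0, h1⟩
      rw [h0, h1] at hE
      have h3 : b 2 = 0 := by simpa using hE
      apply hb
      funext i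
      fin_cases i
      · exact h0
      · exact h1
      · exact h3
    rw [mem_closure_iff_nhds]
    intro t ht
    have hT : {x' | (b, x') ∈ t} ∈ 𝓝 x := by
      have hc : Continuous fun x' : Fin 3 → ℂ => (b, x') := by fun_prop
      exact hc.continuousAt ht
    have himT : (fun x => (Af x, Gf γ x)) '' {x' | (b, x') ∈ t} ∈ 𝓝 ((0 : ℂ), (0 : ℂ)) := by
      rw [← hmap]
      exact image_mem_map hT
    have hcε : Tendsto (fun ε : ℂ => (ε * (2 * b 1), ε * (-b 0))) (𝓝[≠] 0)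
        (𝓝 ((0 : ℂ), (0 : ℂ))) := by
      have h1 : Continuous fun ε : ℂ => (ε * (2 * b 1), ε * (-b 0)) := by fun_prop
      have h2 := h1.tendsto 0
      rw [zero_mul, zero_mul] at h2
      exact h2.mono_left nhdsWithin_le_nhds
    obtain ⟨ε, hε, hε0⟩ := ((hcε.eventually himT).and self_mem_nhdsWithin).exists
    have hε0' : ε ≠ 0 := hε0
    obtain ⟨x', hx't, hx'⟩ := hε
    have eA : Af x' = ε * (2 * b 1) := congrArg Prod.fst hx'
    have eG : Gf γ x' = ε * (-b 0) := congrArg Prod.snd hx'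
    have hxn : ¬ (Af x' = 0 ∧ Gf γ x' = 0) := by
      rintro ⟨h1, h2⟩
      rw [eA] at h1
      rw [eG] at h2
      refine hb01 ⟨?_, ?_⟩
      · exact neg_eq_zero.1 ((mul_eq_zero.1 h2).resolve_left hε0')
      · have := (mul_eq_zero.1 h1).resolve_left hε0'
        simpa using this
    refine ⟨(b, x'), hx't, hgood b x' (mem_Xs.2 ⟨hb, ?_, hE, ?_⟩) hxn⟩
    · rintro rfl
      exact hxn ⟨by simp [Af], by simp [Gf]⟩
    · rw [eA, eG]
      ring

end Pool.Agent.Y188.CN
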