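import Pool.Agent.Y188.CN.Fld

/-!
Existence of the centre of a place of the Fermat curve.
-/

set_option autoImplicit false

namespace Pool.Agent.Y188.CN

open Pool.Agent.TH144.CN Polynomial

variable {K : Type} [Field K] [Algebra ℂ K] {P : Place K} {a b : K}

lemma prod_ord_zero {f : K} (s : Multiset ℂ)
    (h : ∀ r ∈ s, f - algebraMap ℂ K r ≠ 0 ∧ P.ord (f - algebraMap ℂ K r) = 0) :
    aeval f (s.map fun r => (X - C r : ℂ[X])).prod ≠ 0 ∧
      P.ord (aeval f (s.map fun r => (X - C r : ℂ[X])).prod) = 0 := by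
  induction s using Multiset.induction_on with
  | empty => simp [ord_one]
  | cons r s ih =>
    have h1 := h r (Multiset.mem_cons_self r s)
    have h2 := ih fun r' hr' => h r' (Multiset.mem_cons_of_mem hr')
    rw [Multiset.map_cons, Multiset.prod_cons, map_mul, map_sub, aeval_X, aeval_C]
    exact ⟨mul_ne_zero h1.1 h2.1, by rw [P.ord_mul h1.1 h2.1, h1.2, h2.2, add_zero]⟩

lemma ord_eq_zero_of_not {f : K} (hf : Ge P 0 f) {c : ℂ} (h : ¬ Ge P 1 (f - algebraMap ℂ K c)) :
    f - algebraMap ℂ K c ≠ 0 ∧ P.ord (f - algebraMap ℂ K c) = 0 := by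
  have h1 : f - algebraMap ℂ K c ≠ 0 := fun h0 => h (Or.inl h0)
  have h2 : ¬ 1 ≤ P.ord (f - algebraMap ℂ K c) := fun h0 => h (Or.inr h0)
  have h3 := (hf.sub (Ge.const c)).resolve_left h1
  exact ⟨h1, by omega⟩

lemma exists_root_value {f : K} (hf : Ge P 0 f) {c : ℂ}
    (h : Ge P 1 (f ^ 16 - algebraMap ℂ K c)) :
    ∃ r : ℂ, r ^ 16 = c ∧ Ge P 1 (f - algebraMap ℂ K r) := by
  by_contra hne
  push Not at hne
  have hm : (X ^ 16 - C c : ℂ[X]).Monic := monic_X_pow_sub_C c (by norm_num)
  have h1 := (IsAlgClosed.splits (X ^ 16 - C c : ℂ[X])).eq_prod_roots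
  rw [hm.leadingCoeff, C_1, one_mul] at h1
  have h2 := prod_ord_zero (P := P) (f := f) (X ^ 16 - C c : ℂ[X]).roots fun r hr => by
    refine ord_eq_zero_of_not hf (hne r ?_)
    have := isRoot_of_mem_roots hr
    rw [IsRoot.def, eval_sub, eval_pow, eval_X, eval_C] at this
    exact sub_eq_zero.1 this
  rw [← h1, map_sub, map_pow, aeval_X, aeval_C] at h2
  have := h.resolve_left h2.1
  omega

/-- all elements of the field are algebraic over the field generated by the first coordinate -/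
lemma isAlgebraic_of_gen (hE : GenPt a b) (hgen : Gen a b) (f : K) :
    IsAlgebraic (IntermediateField.adjoin ℂ {a}) f := by
  have ham : a ∈ IntermediateField.adjoin ℂ {a} := IntermediateField.mem_adjoin_simple_self ℂ a
  have hb : IsAlgebraic (IntermediateField.adjoin ℂ {a}) b := by
    refine ⟨X ^ 16 + C ⟨a ^ 16 + 1, add_mem (pow_mem ham 16) (one_mem _)⟩,
      (monic_X_pow_add_C _ (by norm_num)).ne_zero, ?_⟩
    rw [map_add, map_pow, aeval_X, aeval_C]
    change b ^ 16 + (a ^ 16 + 1) = 0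
    linear_combination hE.eq
  have hc : ∀ q : ℂ[X], IsAlgebraic (IntermediateField.adjoin ℂ {a}) (aeval a q) := by
    intro q
    have h1 : aeval a q ∈ IntermediateField.adjoin ℂ {a} := by
      have h2 := aeval_algebraMap_apply K (⟨a, ham⟩ : IntermediateField.adjoin ℂ {a}) q
      change aeval a q = _ at h2
      rw [h2]
      exact Subtype.property _
    exact isAlgebraic_algebraMap (⟨aeval a q, h1⟩ : IntermediateField.adjoin ℂ {a})
  have hp : ∀ p : ℂ[X][X], IsAlgebraic (IntermediateField.adjoin ℂ {a}) (ev a b p) := by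
    intro p
    induction p using Polynomial.induction_on' with
    | add p q hp hq => rw [map_add]; exact hp.add hq
    | monomial n c =>
      rw [← C_mul_X_pow_eq_monomial, map_mul, map_pow, ev_X, ev_C]
      exact (hc c).mul (hb.pow n)
  obtain ⟨g, h, -, rfl⟩ := hgen f
  rw [div_eq_mul_inv]
  exact (hp g).mul (hp h).inv

/-- a regular function has a value -/
lemma exists_value (hE : GenPt a b) (hgen : Gen a b) (ha : Ge P 0 a) :
    ∃ c : ℂ, Ge P 1 (a - algebraMap ℂ K c) := by
  by_contra hne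
  push Not at hne
  have h1 : ∀ p : ℂ[X], p ≠ 0 → aeval a p ≠ 0 ∧ P.ord (aeval a p) = 0 := by
    intro p hp
    have h1 := (IsAlgClosed.splits p).eq_prod_roots
    have h2 := prod_ord_zero (P := P) (f := a) p.roots fun r _ => ord_eq_zero_of_not ha (hne r)
    have h3 : p.leadingCoeff ≠ 0 := leadingCoeff_ne_zero.2 hp
    have h4 : algebraMap ℂ K p.leadingCoeff ≠ 0 := by rwa [Ne, map_eq_zero]
    rw [h1, map_mul, aeval_C]
    exact ⟨mul_ne_zero h4 h2.1, by rw [P.ord_mul h4 h2.1, P.ord_const h3, h2.2, add_zero]⟩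
  have h2 : ∀ f ∈ IntermediateField.adjoin ℂ {a}, f ≠ 0 → P.ord f = 0 := by
    intro f hf hf0
    obtain ⟨p, q, rfl⟩ := (IntermediateField.mem_adjoin_simple_iff ℂ f).1 hf
    rw [div_ne_zero_iff] at hf0
    have hp : p ≠ 0 := by
      rintro rfl
      exact hf0.1 (map_zero _)
    have hq : q ≠ 0 := by
      rintro rfl
      exact hf0.2 (map_zero _)
    rw [ord_div P hf0.1 hf0.2, (h1 p hp).2, (h1 q hq).2, sub_zero]
  obtain ⟨t, ht0, ht⟩ := P.surj
  have halg := (isAlgebraic_of_gen hE hgen t).isIntegral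
  have h3 := minpoly.coeff_zero_ne_zero halg ht0
  have h4 := minpoly.aeval (IntermediateField.adjoin ℂ {a}) t
  rw [← divX_mul_X_add (minpoly (IntermediateField.adjoin ℂ {a}) t), map_add, map_mul, aeval_X,
    aeval_C] at h4
  have h5 : ∀ p : (IntermediateField.adjoin ℂ {a})[X], Ge P 0 (aeval t p) := by
    intro p
    induction p using Polynomial.induction_on' with
    | add p q hp hq => rw [map_add]; exact hp.add hq
    | monomial n c =>
      rw [← C_mul_X_pow_eq_monomial, map_mul, map_pow, aeval_X, aeval_C]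
      refine Ge.mul (m := 0) (n := 0) ?_ (Ge.pow (Or.inr (by omega)) n)
      rcases eq_or_ne ((c : K)) 0 with hc | hc
      · exact Or.inl hc
      · exact Or.inr (h2 _ c.2 hc).ge
  obtain ⟨c, hc⟩ : ∃ c, c = (minpoly (IntermediateField.adjoin ℂ {a}) t).coeff 0 := ⟨_, rfl⟩
  rw [← hc] at h3 h4
  have h6 : (c : K) ≠ 0 := fun h => h3 (Subtype.ext h)
  have h7 : Ge P 1 (c : K) := by
    have h8 : (c : K) = -(aeval t (minpoly (IntermediateField.adjoin ℂ {a}) t).divX * t) := by
      change _ + (c : K) = 0 at h4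
      linear_combination h4
    rw [h8]
    have h9 : Ge P 1 t := Or.inr ht.ge
    have := ((h5 (minpoly (IntermediateField.adjoin ℂ {a}) t).divX).mul h9).neg
    simpa using this
  have := h7.resolve_left h6
  rw [h2 _ c.2 h6] at this
  omega

lemma ge_zero_snd (hE : GenPt a b) (ha : Ge P 0 a) : Ge P 0 b := by
  rcases eq_or_ne b 0 with h0 | h0
  · exact Or.inl h0
  refine Or.inr ?_
  have h1 : Ge P 0 (b ^ 16) := by
    have h2 : b ^ 16 = -1 - a ^ 16 := by linear_combination hE.eq
    rw [h2]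
    exact Ge.one.neg.sub (ha.pow 16)
  have h3 := h1.resolve_left (pow_ne_zero 16 h0)
  rw [ord_pow P h0] at h3
  push_cast at h3
  omega

/-- a place at which the first coordinate is regular has a centre -/
theorem exists_center (hE : GenPt a b) (hgen : Gen a b) (ha : Ge P 0 a) :
    ∃ a₀ b₀ : ℂ, Cen P a b a₀ b₀ := by
  obtain ⟨a₀, ha₀⟩ := exists_value hE hgen ha
  have h1 : Ge P 1 (b ^ 16 - algebraMap ℂ K (-1 - a₀ ^ 16)) := by
    have h2 : b ^ 16 - algebraMap ℂ K (-1 - a₀ ^ 16) =
        -((a - algebraMap ℂ K a₀) *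
          ∑ i ∈ Finset.range 16, a ^ i * (algebraMap ℂ K a₀) ^ (15 - i)) := by
      have h3 := geom_sum₂_mul a (algebraMap ℂ K a₀) 16
      rw [mul_comm, map_sub, map_neg, map_one, map_pow]
      linear_combination hE.eq + h3
    rw [h2]
    refine Ge.neg ?_
    have h3 : Ge P 0 (∑ i ∈ Finset.range 16, a ^ i * (algebraMap ℂ K a₀) ^ (15 - i)) := by
      have h4 : ∀ s : Finset ℕ, Ge P 0 (∑ i ∈ s, a ^ i * (algebraMap ℂ K a₀) ^ (15 - i)) := by
        intro s
        induction s using Finset.induction_on with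
        | empty => exact Or.inl (Finset.sum_empty)
        | insert i s hi ih =>
          rw [Finset.sum_insert hi]
          exact Ge.add ((ha.pow i).mul ((Ge.const a₀).pow (15 - i))) ih
      exact h4 _
    simpa using ha₀.mul h3
  obtain ⟨b₀, -, hb₀⟩ := exists_root_value (ge_zero_snd hE ha) h1
  exact ⟨a₀, b₀, ha₀, hb₀⟩

/-- a place at which the first coordinate vanishes -/
theorem exists_center_zero (hE : GenPt a b) (ha : Ge P 1 a) :
    ∃ ω : ℂ, ω ^ 16 = -1 ∧ Cen P a b 0 ω := by
  have ha0 : Ge P 0 a := ha.mono (by norm_num)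
  have h1 : Ge P 1 (b ^ 16 - algebraMap ℂ K (-1)) := by
    have h2 : b ^ 16 - algebraMap ℂ K (-1) = -(a * a ^ 15) := by
      rw [map_neg, map_one]
      linear_combination hE.eq
    rw [h2]
    refine Ge.neg ?_
    simpa using ha.mul (ha0.pow 15)
  obtain ⟨ω, hω, hb⟩ := exists_root_value (ge_zero_snd hE ha0) h1
  exact ⟨ω, hω, by rwa [map_zero, sub_zero], hb⟩

end Pool.Agent.Y188.CN
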