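import Pool.Agent.Y188.CN.Pl

/-!
The Fermat curve of degree 16: a polynomial vanishes at a generic point of the curve iff it vanishes
at all its complex points.
-/

set_option autoImplicit false

namespace Pool.Agent.Y188.CN

open Pool.Agent.TH144.CN Polynomial

/-- The equation of the Fermat curve of degree `16`. -/
noncomputable def Fe : ℂ[X][X] := X ^ 16 + C (X ^ 16 + 1)

lemma Fe_monic : Fe.Monic := monic_X_pow_add_C _ (by norm_num)

lemma Fe_natDegree : Fe.natDegree = 16 := natDegree_X_pow_add_C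

lemma ev_Fe {R : Type} [CommRing R] [Algebra ℂ R] (a b : R) : ev a b Fe = b ^ 16 + a ^ 16 + 1 := by
  simp [Fe, add_assoc]

lemma Fe_coeff_zero : Fe.coeff 0 = X ^ 16 + 1 := by
  rw [Fe, coeff_add, coeff_X_pow, if_neg (by norm_num), coeff_C_zero, zero_add]

lemma Fe_irreducible : Irreducible Fe := by
  obtain ⟨η, hη⟩ := IsAlgClosed.exists_pow_nat_eq (-1 : ℂ) (n := 16) (by norm_num)
  have hη0 : η ≠ 0 := by
    rintro rfl
    norm_num at hη
  have hprime : (Ideal.span {(X - C η : ℂ[X])}).IsPrime := by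
    rw [Ideal.span_singleton_prime (X_sub_C_ne_zero η)]
    exact prime_X_sub_C η
  have hroot : (X - C η : ℂ[X]) ∣ X ^ 16 + 1 := by
    rw [dvd_iff_isRoot]
    simp [IsRoot, hη]
  refine irreducible_of_eisenstein_criterion hprime ?_ ?_ ?_ ?_ Fe_monic.isPrimitive
  · rw [Fe_monic.leadingCoeff]
    exact fun h => hprime.ne_top ((Ideal.eq_top_iff_one _).2 h)
  · intro n hn
    rw [degree_eq_natDegree Fe_monic.ne_zero, Fe_natDegree] at hn
    have hn' : n < 16 := by exact_mod_cast hn
    rw [Ideal.mem_span_singleton]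
    rcases Nat.eq_zero_or_pos n with rfl | h0
    · rwa [Fe_coeff_zero]
    · have : Fe.coeff n = 0 := by
        rw [Fe, coeff_add, coeff_X_pow, coeff_C, if_neg hn'.ne, if_neg h0.ne', add_zero]
      rw [this]
      exact dvd_zero _
  · rw [degree_eq_natDegree Fe_monic.ne_zero, Fe_natDegree]
    norm_num
  · rw [Ideal.span_singleton_pow, Ideal.mem_span_singleton]
    rw [Fe_coeff_zero]
    rintro ⟨g, hg⟩
    have h1 := congrArg (fun p => (derivative p).eval η) hg
    simp only [derivative_add, derivative_one, derivative_mul, derivative_pow,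
      derivative_sub, derivative_X, derivative_C, eval_add, eval_mul, eval_pow, eval_sub, eval_X,
      eval_C, sub_self, eval_zero] at h1
    norm_num at h1
    exact hη0 h1

section generic

variable {K : Type} [Field K] [Algebra ℂ K] {a b : K}

/-- `(a, b)` is a generic point of the Fermat curve `a ^ 16 + b ^ 16 + 1 = 0` -/
structure GenPt (a b : K) : Prop where
  eq : a ^ 16 + b ^ 16 = -1
  tr : Transcendental ℂ a

/-- A polynomial which vanishes at a generic point is divisible by the equation. -/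
theorem GenPt.dvd (h : GenPt a b) {p : ℂ[X][X]} (hp : ev a b p = 0) : Fe ∣ p := by
  rw [← modByMonic_eq_zero_iff_dvd Fe_monic]
  have hR : ev a b (p %ₘ Fe) = 0 := by
    have h1 := congrArg (ev a b) (modByMonic_add_div p Fe)
    rw [map_add, map_mul, ev_Fe, hp] at h1
    have h2 : b ^ 16 + a ^ 16 + 1 = 0 := by rw [add_comm (b ^ 16), h.eq]; ring
    rwa [h2, zero_mul, add_zero] at h1
  have hdeg : (p %ₘ Fe).degree < 16 := by
    have := degree_modByMonic_lt p Fe_monic
    rwa [degree_eq_natDegree Fe_monic.ne_zero, Fe_natDegree] at this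
  obtain ⟨q, hq⟩ : ∃ q, q = p %ₘ Fe := ⟨_, rfl⟩
  rw [← hq] at hR hdeg ⊢
  have hinj : Function.Injective (aeval a : ℂ[X] →ₐ[ℂ] K).toRingHom :=
    transcendental_iff_injective.1 h.tr
  let ψ : FractionRing ℂ[X] →+* K := IsFractionRing.lift hinj
  let _ : Algebra (FractionRing ℂ[X]) K := ψ.toAlgebra
  have hψ : ∀ c : ℂ[X], algebraMap (FractionRing ℂ[X]) K (algebraMap ℂ[X] _ c) = aeval a c :=
    fun c => IsFractionRing.lift_algebraMap hinj c
  have hev : ∀ r : ℂ[X][X], aeval b (r.map (algebraMap ℂ[X] (FractionRing ℂ[X]))) = ev a b r := by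
    intro r
    have hc : (algebraMap (FractionRing ℂ[X]) K).comp (algebraMap ℂ[X] (FractionRing ℂ[X])) =
        (aeval a : ℂ[X] →ₐ[ℂ] K).toRingHom := RingHom.ext hψ
    rw [aeval_def, eval₂_map, ev, hc]
    rfl
  have hirr : Irreducible (Fe.map (algebraMap ℂ[X] (FractionRing ℂ[X]))) :=
    (Fe_monic.irreducible_iff_irreducible_map_fraction_map).1 Fe_irreducible
  have hmin : Fe.map (algebraMap ℂ[X] (FractionRing ℂ[X])) = minpoly (FractionRing ℂ[X]) b := by
    refine minpoly.eq_of_irreducible_of_monic hirr ?_ (Fe_monic.map _)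
    rw [hev, ev_Fe, add_comm (b ^ 16), h.eq]
    ring
  have hd : minpoly (FractionRing ℂ[X]) b ∣ q.map (algebraMap ℂ[X] (FractionRing ℂ[X])) := by
    refine minpoly.dvd _ _ ?_
    rw [hev, hR]
  have h0 : q.map (algebraMap ℂ[X] (FractionRing ℂ[X])) = 0 := by
    by_contra hne
    have h1 := degree_le_of_dvd hd hne
    rw [← hmin, degree_map_eq_of_injective (IsFractionRing.injective ℂ[X] (FractionRing ℂ[X])),
      degree_map_eq_of_injective (IsFractionRing.injective ℂ[X] (FractionRing ℂ[X])),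
      degree_eq_natDegree Fe_monic.ne_zero, Fe_natDegree] at h1
    exact absurd (lt_of_le_of_lt h1 hdeg) (lt_irrefl _)
  exact (Polynomial.map_eq_zero_iff (IsFractionRing.injective ℂ[X] (FractionRing ℂ[X]))).1 h0

/-- A polynomial which vanishes at all complex points is divisible by the equation. -/
theorem dvd_of_points {p : ℂ[X][X]} (hp : ∀ a b : ℂ, a ^ 16 + b ^ 16 = -1 → ev a b p = 0) :
    Fe ∣ p := by
  rw [← modByMonic_eq_zero_iff_dvd Fe_monic]
  have hR : ∀ a b : ℂ, a ^ 16 + b ^ 16 = -1 → ev a b (p %ₘ Fe) = 0 := by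
    intro a b hab
    have h1 := congrArg (ev a b) (modByMonic_add_div p Fe)
    rw [map_add, map_mul, ev_Fe, hp a b hab] at h1
    have h2 : b ^ 16 + a ^ 16 + 1 = 0 := by rw [add_comm (b ^ 16), hab]; ring
    rwa [h2, zero_mul, add_zero] at h1
  have hdeg : (p %ₘ Fe).degree < 16 := by
    have := degree_modByMonic_lt p Fe_monic
    rwa [degree_eq_natDegree Fe_monic.ne_zero, Fe_natDegree] at this
  obtain ⟨q, hq⟩ : ∃ q, q = p %ₘ Fe := ⟨_, rfl⟩
  rw [← hq] at hR hdeg ⊢
  -- for all but finitely many `a` the polynomial `q(a, T)` has 16 roots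
  have key : ∀ a : ℂ, a ^ 16 + 1 ≠ 0 → q.map (evalRingHom a) = 0 := by
    intro a ha
    obtain ⟨ρ, hρ⟩ := IsAlgClosed.exists_pow_nat_eq (-1 - a ^ 16) (n := 16) (by norm_num)
    have hρ0 : ρ ≠ 0 := by
      rintro rfl
      apply ha
      rw [zero_pow (by norm_num)] at hρ
      linear_combination hρ
    obtain ⟨ω, hω⟩ : ∃ ω : ℂ, IsPrimitiveRoot ω 16 :=
      ⟨_, Complex.isPrimitiveRoot_exp 16 (by norm_num)⟩
    refine eq_zero_of_degree_lt_of_eval_finset_eq_zero
      (s := Finset.univ.image fun i : Fin 16 => ω ^ (i : ℕ) * ρ) ?_ ?_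
    · rw [Finset.card_image_of_injective]
      · simpa using lt_of_le_of_lt (degree_map_le (f := evalRingHom a) (p := q)) hdeg
      · intro i j hij
        have h1 : ω ^ (i : ℕ) = ω ^ (j : ℕ) := mul_right_cancel₀ hρ0 hij
        exact Fin.ext (hω.pow_inj i.2 j.2 h1)
    · intro x hx
      obtain ⟨i, -, rfl⟩ := Finset.mem_image.1 hx
      have h1 : ev a (ω ^ (i : ℕ) * ρ) q = 0 := by
        apply hR
        rw [mul_pow, ← pow_mul, mul_comm (i : ℕ), pow_mul, hω.pow_eq_one, one_pow, one_mul, hρ]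
        ring
      rw [← h1, ev]
      simp [eval_map, coe_aeval_eq_evalRingHom]
  ext n : 1
  rw [coeff_zero]
  by_contra hne
  have hfin : {a : ℂ | IsRoot (q.coeff n) a}.Finite := finite_setOfPred_isRoot hne
  have hfin2 : {a : ℂ | IsRoot (X ^ 16 + 1 : ℂ[X]) a}.Finite := by
    refine finite_setOfPred_isRoot ?_
    exact (monic_X_pow_add_C (1 : ℂ) (by norm_num)).ne_zero
  have huniv : ({a : ℂ | IsRoot (q.coeff n) a} ∪ {a : ℂ | IsRoot (X ^ 16 + 1 : ℂ[X]) a}) =
      Set.univ := by
    refine Set.eq_univ_of_forall fun a => ?_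
    by_cases ha : a ^ 16 + 1 = 0
    · exact Or.inr (by simpa [IsRoot] using ha)
    · refine Or.inl ?_
      have := congrArg (fun r => coeff r n) (key a ha)
      simpa [coeff_map] using this
  exact Set.infinite_univ (huniv ▸ hfin.union hfin2)

/-- A polynomial vanishes at a generic point iff it vanishes at all complex points. -/
theorem GenPt.ev_eq_zero_iff (h : GenPt a b) (p : ℂ[X][X]) :
    ev a b p = 0 ↔ ∀ a₀ b₀ : ℂ, a₀ ^ 16 + b₀ ^ 16 = -1 → ev a₀ b₀ p = 0 := by
  constructor
  · intro hp a₀ b₀ hab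
    obtain ⟨g, rfl⟩ := h.dvd hp
    rw [map_mul, ev_Fe, add_comm (b₀ ^ 16), hab]
    ring
  · intro hp
    obtain ⟨g, rfl⟩ := dvd_of_points hp
    rw [map_mul, ev_Fe, add_comm (b ^ 16), h.eq]
    ring

end generic

end Pool.Agent.Y188.CN
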