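import Pool.Agent.Y188.CN.Loc

/-!
The function field of the Fermat curve of degree 16, as a subfield of the field of Laurent series.
-/

set_option autoImplicit false

namespace Pool.Agent.Y188.CN

open Pool.Agent.TH144.CN

section quot

open Polynomial

variable {K : Type} [Field K] [Algebra ℂ K] {a b : K}

/-- `f` is a quotient of polynomials in `a` and `b` -/
def IsQuot (a b f : K) : Prop := ∃ g h : ℂ[X][X], ev a b h ≠ 0 ∧ f = ev a b g / ev a b h

lemma IsQuot.const (c : ℂ) : IsQuot a b (algebraMap ℂ K c) :=
  ⟨C (C c), 1, by simp, by simp⟩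

lemma IsQuot.fst : IsQuot a b a := ⟨C X, 1, by simp, by simp⟩

lemma IsQuot.snd : IsQuot a b b := ⟨X, 1, by simp, by simp⟩

lemma IsQuot.add {f g : K} (hf : IsQuot a b f) (hg : IsQuot a b g) : IsQuot a b (f + g) := by
  obtain ⟨p, q, hq, rfl⟩ := hf
  obtain ⟨p', q', hq', rfl⟩ := hg
  refine ⟨p * q' + q * p', q * q', by rw [map_mul]; exact mul_ne_zero hq hq', ?_⟩
  rw [map_add, map_mul, map_mul, map_mul, div_add_div _ _ hq hq']

lemma IsQuot.mul {f g : K} (hf : IsQuot a b f) (hg : IsQuot a b g) : IsQuot a b (f * g) := by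
  obtain ⟨p, q, hq, rfl⟩ := hf
  obtain ⟨p', q', hq', rfl⟩ := hg
  refine ⟨p * p', q * q', by rw [map_mul]; exact mul_ne_zero hq hq', ?_⟩
  rw [map_mul, map_mul, div_mul_div_comm]

lemma IsQuot.inv {f : K} (hf : IsQuot a b f) : IsQuot a b f⁻¹ := by
  obtain ⟨p, q, hq, rfl⟩ := hf
  by_cases hp : ev a b p = 0
  · rw [hp, zero_div, inv_zero]
    exact ⟨0, 1, by simp, by simp⟩
  · exact ⟨q, p, hp, by rw [inv_div]⟩

lemma IsQuot.div {f g : K} (hf : IsQuot a b f) (hg : IsQuot a b g) : IsQuot a b (f / g) := by
  rw [div_eq_mul_inv]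
  exact hf.mul hg.inv

lemma IsQuot.pow {f : K} (hf : IsQuot a b f) (n : ℕ) : IsQuot a b (f ^ n) := by
  induction n with
  | zero => rw [pow_zero]; simpa using IsQuot.const (a := a) (b := b) 1
  | succ n ih => rw [pow_succ]; exact ih.mul hf

/-- the values of polynomials in quotients are quotients -/
lemma IsQuot.ev {c d : K} (hc : IsQuot a b c) (hd : IsQuot a b d) (p : ℂ[X][X]) :
    IsQuot a b (ev c d p) := by
  have h0 : IsQuot a b (0 : K) := by simpa using IsQuot.const (a := a) (b := b) 0
  have hC : ∀ q : ℂ[X], IsQuot a b (aeval c q) := by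
    intro q
    induction q using Polynomial.induction_on' with
    | add p q hp hq => rw [map_add]; exact hp.add hq
    | monomial n e =>
      rw [← C_mul_X_pow_eq_monomial, map_mul, map_pow, aeval_X, aeval_C]
      exact (IsQuot.const e).mul (hc.pow n)
  induction p using Polynomial.induction_on' with
  | add p q hp hq => rw [map_add]; exact hp.add hq
  | monomial n e =>
    rw [← C_mul_X_pow_eq_monomial, map_mul, map_pow, ev_X, ev_C]
    exact (hC e).mul (hd.pow n)

/-- change of generators -/
lemma Gen.of_isQuot {c d : K} (h : Gen c d) (hc : IsQuot a b c) (hd : IsQuot a b d) :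
    Gen a b := by
  intro f
  obtain ⟨g, q, -, rfl⟩ := h f
  exact (hc.ev hd g).div (hc.ev hd q)

end quot

/-! ### Restriction to a subfield -/

section restrict

variable {L : Type} [Field L] [Algebra ℂ L] {s w : L}

/-- restriction of a place to a subfield which contains a uniformizer -/
def restrict (P : Place L) (K : IntermediateField ℂ L) {t : L} (ht : t ∈ K) (h1 : P.ord t = 1) :
    Place K where
  ord f := P.ord f
  ord_zero := P.ord_zero
  ord_mul := fun {f g} hf hg => P.ord_mul (fun h => hf (Subtype.ext h)) fun h => hg (Subtype.ext h)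
  ord_add := fun {f g} hf hg hfg => P.ord_add (fun h => hf (Subtype.ext h))
    (fun h => hg (Subtype.ext h)) fun h => hfg (Subtype.ext h)
  ord_const := fun {_} hc => P.ord_const hc
  surj := ⟨⟨t, ht⟩, fun h => by
    have h2 : t = 0 := congrArg Subtype.val h
    rw [h2, P.ord_zero] at h1
    omega, h1⟩

lemma transcendental_of_ord (P : Place L) {t : L} (ht : P.ord t = 1) : Transcendental ℂ t := by
  intro halg
  obtain ⟨c, rfl⟩ := minpoly.mem_range_of_degree_eq_one ℂ t
    (IsAlgClosed.degree_eq_one_of_irreducible ℂ (minpoly.irreducible halg.isIntegral))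
  rcases eq_or_ne c 0 with h | h
  · rw [h, map_zero, P.ord_zero] at ht
    omega
  · rw [P.ord_const h] at ht
    omega

/-- restriction of the derivation -/
lemma exists_derivation (D : Derivation ℂ L L) (hs : D s = w ^ 15) (hw : D w = -s ^ 15) :
    ∃ D' : Derivation ℂ (IntermediateField.adjoin ℂ ({s, w} : Set L))
      (IntermediateField.adjoin ℂ ({s, w} : Set L)), ∀ f, ((D' f : _) : L) = D f := by
  have hsm : s ∈ IntermediateField.adjoin ℂ ({s, w} : Set L) :=
    IntermediateField.subset_adjoin ℂ _ (by simp)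
  have hwm : w ∈ IntermediateField.adjoin ℂ ({s, w} : Set L) :=
    IntermediateField.subset_adjoin ℂ _ (by simp)
  have hstab : ∀ f ∈ IntermediateField.adjoin ℂ ({s, w} : Set L),
      D f ∈ IntermediateField.adjoin ℂ ({s, w} : Set L) := by
    intro f hf
    induction hf using IntermediateField.adjoin_induction with
    | mem x hx =>
      rcases hx with hx | hx
      · rw [hx, hs]; exact pow_mem hwm 15
      · rw [Set.mem_singleton_iff.1 hx, hw]
        exact neg_mem (pow_mem hsm 15)
    | algebraMap x => rw [D.map_algebraMap]; exact zero_mem _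
    | add x y hx hy h1 h2 => rw [map_add]; exact add_mem h1 h2
    | inv x hx h1 =>
      rw [Derivation.leibniz_inv, smul_eq_mul]
      exact mul_mem (neg_mem (pow_mem (inv_mem hx) 2)) h1
    | mul x y hx hy h1 h2 =>
      rw [Derivation.leibniz, smul_eq_mul, smul_eq_mul]
      exact add_mem (mul_mem hx h2) (mul_mem hy h1)
  refine ⟨Derivation.mk'
    { toFun := fun f => ⟨D f, hstab f f.2⟩
      map_add' := fun f g => by
        ext1
        push_cast
        exact map_add D _ _
      map_smul' := fun c f => by
        ext1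
        simp }
    (by
      intro f g
      ext1
      simp only [LinearMap.coe_mk, AddHom.coe_mk, smul_eq_mul]
      push_cast
      rw [D.leibniz]
      rfl), fun f => rfl⟩

lemma derivation_aux (hsw : s ^ 16 + w ^ 16 = -1) (hs0 : s ≠ 0)
    (E : Derivation ℂ L L) (hE : E s = s) : ((w ^ 15 / s) • E) s = w ^ 15 ∧
      ((w ^ 15 / s) • E) w = -s ^ 15 := by
  have h2 : (16 : L) ≠ 0 := by
    have := charZero_of_injective_algebraMap (algebraMap ℂ L).injective
    norm_num
  have hew : w ^ 15 * E w = -s ^ 16 := by
    have h1 := congrArg E hsw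
    rw [map_add, Derivation.leibniz_pow, Derivation.leibniz_pow, hE, map_neg,
      Derivation.map_one_eq_zero, neg_zero] at h1
    simp only [smul_eq_mul, nsmul_eq_mul] at h1
    have h3 : (16 : L) * (s ^ 16 + w ^ 15 * E w) = 0 := by
      push_cast at h1
      linear_combination h1
    linear_combination (mul_eq_zero.1 h3).resolve_left h2
  constructor
  · rw [Derivation.smul_apply, hE, smul_eq_mul, div_mul_cancel₀ _ hs0]
  · rw [Derivation.smul_apply, smul_eq_mul, div_mul_eq_mul_div, hew, div_eq_iff hs0]
    ring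

lemma gen_adjoin (s w : L) : Gen
    (⟨s, IntermediateField.subset_adjoin ℂ _ (by simp)⟩ :
      IntermediateField.adjoin ℂ ({s, w} : Set L))
    ⟨w, IntermediateField.subset_adjoin ℂ _ (by simp)⟩ := by
  intro f
  obtain ⟨f, hf⟩ := f
  have hsm : s ∈ IntermediateField.adjoin ℂ ({s, w} : Set L) :=
    IntermediateField.subset_adjoin ℂ _ (by simp)
  have hwm : w ∈ IntermediateField.adjoin ℂ ({s, w} : Set L) :=
    IntermediateField.subset_adjoin ℂ _ (by simp)
  have : ∀ f (hf : f ∈ IntermediateField.adjoin ℂ ({s, w} : Set L)),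
      IsQuot (⟨s, hsm⟩ : IntermediateField.adjoin ℂ ({s, w} : Set L)) ⟨w, hwm⟩ ⟨f, hf⟩ := by
    intro f hf
    induction hf using IntermediateField.adjoin_induction with
    | mem x hx =>
      rcases hx with hx | hx
      · subst hx
        exact IsQuot.fst
      · obtain rfl := Set.mem_singleton_iff.1 hx
        exact IsQuot.snd
    | algebraMap x => exact IsQuot.const x
    | add x y hx hy h1 h2 => exact h1.add h2
    | inv x hx h1 => exact h1.inv
    | mul x y hx hy h1 h2 => exact h1.mul h2
  exact this f hf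

/-- The function field inside a field with a place. -/
theorem model_of (P : Place L) (hs1 : P.ord s = 1) (hsw : s ^ 16 + w ^ 16 = -1)
    (E : Derivation ℂ L L) (hE : E s = s) :
    ∃ (K : Type) (_ : Field K) (_ : Algebra ℂ K) (s w : K) (D : Derivation ℂ K K) (P : Place K),
    GenPt s w ∧ Gen s w ∧ D s = w ^ 15 ∧ D w = -s ^ 15 ∧ P.ord s = 1 := by
  have hs0 : s ≠ 0 := by
    rintro rfl
    rw [P.ord_zero] at hs1
    omega
  have hw0 : w ≠ 0 := by
    rintro rfl
    rw [zero_pow (by norm_num), add_zero] at hsw
    have h1 := congrArg P.ord hsw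
    rw [ord_pow P hs0, hs1, ord_neg, ord_one] at h1
    norm_num at h1
  obtain ⟨h1, h2⟩ := derivation_aux hsw hs0 E hE
  obtain ⟨D', hD'⟩ := exists_derivation _ h1 h2
  have hsm : s ∈ IntermediateField.adjoin ℂ ({s, w} : Set L) :=
    IntermediateField.subset_adjoin ℂ _ (by simp)
  have hwm : w ∈ IntermediateField.adjoin ℂ ({s, w} : Set L) :=
    IntermediateField.subset_adjoin ℂ _ (by simp)
  refine ⟨IntermediateField.adjoin ℂ ({s, w} : Set L), inferInstance, inferInstance, ⟨s, hsm⟩,
    ⟨w, hwm⟩, D', restrict P _ hsm hs1, ⟨Subtype.ext hsw,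
      transcendental_of_ord (restrict P _ hsm hs1) hs1⟩, gen_adjoin s w, ?_, ?_, hs1⟩
  · exact Subtype.ext ((hD' _).trans h1)
  · exact Subtype.ext ((hD' _).trans h2)

end restrict

/-! ### The Euler derivation of the field of Laurent series -/

open HahnSeries

attribute [-instance] HahnSeries.powerSeriesAlgebra

/-- the Euler derivation, as a function -/
noncomputable def eulFun (u : LaurentSeries ℂ) : LaurentSeries ℂ where
  coeff g := (g : ℂ) * u.coeff g
  isPWO_support' := u.isPWO_support.mono (by
    intro g hg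
    rw [Function.mem_support] at hg
    rw [mem_support]
    exact right_ne_zero_of_mul hg)

theorem coeff_eulFun (u : LaurentSeries ℂ) (g : ℤ) :
    (eulFun u).coeff g = (g : ℂ) * u.coeff g := rfl

theorem support_eulFun (u : LaurentSeries ℂ) : (eulFun u).support ⊆ u.support := by
  intro g hg
  rw [mem_support, coeff_eulFun] at hg
  rw [mem_support]
  exact right_ne_zero_of_mul hg

/-- the Euler derivation -/
noncomputable def eul : Derivation ℂ (LaurentSeries ℂ) (LaurentSeries ℂ) where
  toFun := eulFun
  map_add' u v := by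
    ext g
    simp only [coeff_add, coeff_eulFun]
    ring
  map_smul' c u := by
    ext g
    simp only [coeff_smul, coeff_eulFun, RingHom.id_apply, smul_eq_mul]
    ring
  map_one_eq_zero' := by
    ext g
    simp only [LinearMap.coe_mk, AddHom.coe_mk, coeff_eulFun, coeff_one, coeff_zero]
    split_ifs with h
    · rw [h, Int.cast_zero, zero_mul]
    · rw [mul_zero]
  leibniz' u v := by
    ext g
    simp only [LinearMap.coe_mk, AddHom.coe_mk, smul_eq_mul, coeff_add, coeff_eulFun]
    rw [mul_comm v, coeff_mul_right' v.isPWO_support (support_eulFun v),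
      coeff_mul_left' u.isPWO_support (support_eulFun u), coeff_mul,
      Finset.mul_sum, ← Finset.sum_add_distrib]
    refine Finset.sum_congr rfl fun p hp => ?_
    rw [coeff_eulFun, coeff_eulFun, ← (Finset.mem_antidiagonal.1 hp).2.2, Int.cast_add]
    ring

lemma eul_apply (u : LaurentSeries ℂ) : eul u = eulFun u := rfl

lemma eul_s : eul (single 1 1 : LaurentSeries ℂ) = single 1 1 := by
  ext g
  rw [eul_apply, coeff_eulFun, coeff_single]
  split_ifs with h
  · rw [h, Int.cast_one, one_mul]
  · rw [mul_zero]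

/-- A sixteenth root of `-1 - s ^ 16`. -/
lemma exists_w_pow : ∃ w : PowerSeries ℂ, w ^ 16 + (1 + PowerSeries.X ^ 16) = 0 := by
  obtain ⟨ω, hω⟩ := IsAlgClosed.exists_pow_nat_eq (-1 : ℂ) (n := 16) (by norm_num)
  have hω0 : ω ≠ 0 := by
    rintro rfl
    norm_num at hω
  have hH : HenselianRing (PowerSeries ℂ) (Ideal.span {(PowerSeries.X : PowerSeries ℂ)}) :=
    inferInstance
  obtain ⟨w, hw, -⟩ := hH.is_henselian
    (Polynomial.X ^ 16 + Polynomial.C (1 + PowerSeries.X ^ 16 : PowerSeries ℂ))
    (Polynomial.monic_X_pow_add_C _ (by norm_num)) (PowerSeries.C ω) (by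
      rw [Polynomial.eval_add, Polynomial.eval_pow, Polynomial.eval_X, Polynomial.eval_C,
        ← map_pow, hω, Ideal.mem_span_singleton, map_neg, map_one, neg_add_cancel_left]
      exact dvd_pow_self _ (by norm_num)) (by
      refine IsUnit.map _ ?_
      rw [Polynomial.derivative_add, Polynomial.derivative_X_pow, Polynomial.derivative_C,
        add_zero, Polynomial.eval_mul, Polynomial.eval_pow, Polynomial.eval_X,
        Polynomial.eval_C, ← map_pow, ← map_natCast (PowerSeries.C (R := ℂ)), ← map_mul]
      refine IsUnit.map _ (isUnit_iff_ne_zero.2 (mul_ne_zero (by norm_num) (pow_ne_zero _ hω0))))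
  refine ⟨w, ?_⟩
  rw [Polynomial.IsRoot.def, Polynomial.eval_add, Polynomial.eval_pow, Polynomial.eval_X,
    Polynomial.eval_C] at hw
  exact hw

lemma pair_of_hom {R L : Type} [CommRing R] [Field L] (φ : R →+* L) {x w : R}
    (h : w ^ 16 + (1 + x ^ 16) = 0) : φ x ^ 16 + φ w ^ 16 = -1 := by
  have h2 := congrArg φ h
  rw [map_add, map_add, map_pow, map_pow, map_one, map_zero] at h2
  linear_combination h2

/-- the place of the field of Laurent series -/
noncomputable def placeL : Place (LaurentSeries ℂ) where
  ord := HahnSeries.order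
  ord_zero := order_zero
  ord_mul := order_mul
  ord_add := fun _ _ h => min_order_le_order_add h
  ord_const := fun _ => order_C
  surj := ⟨single 1 1, single_ne_zero one_ne_zero, order_single one_ne_zero⟩

/-- power series as Laurent series -/
noncomputable def phi : PowerSeries ℂ →+* LaurentSeries ℂ := ofPowerSeries ℤ ℂ

lemma phi_X : phi PowerSeries.X = single 1 1 := ofPowerSeries_X

/-- The function field. -/
theorem exists_model : ∃ (K : Type) (_ : Field K) (_ : Algebra ℂ K) (s w : K)
    (D : Derivation ℂ K K) (P : Place K),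
    GenPt s w ∧ Gen s w ∧ D s = w ^ 15 ∧ D w = -s ^ 15 ∧ P.ord s = 1 := by
  obtain ⟨w, hw⟩ := exists_w_pow
  have h3 := pair_of_hom phi hw
  have h1 : placeL.ord (phi PowerSeries.X) = 1 := by
    rw [phi_X]
    exact order_single one_ne_zero
  have h2 : eul (phi PowerSeries.X) = phi PowerSeries.X := by
    rw [phi_X]
    exact eul_s
  generalize phi PowerSeries.X = S at h1 h2 h3
  generalize phi w = W at h3
  exact model_of placeL h1 h3 eul h2

end Pool.Agent.Y188.CN
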