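import Pool.Agent.Y188.CN.Num

/-!
The intersection numbers of the curve `(1 : q : q ^ 15 r)`.
-/

set_option autoImplicit false

namespace Pool.Agent.Y188.CN

open Pool.Agent.TH144.CN Polynomial

variable {K : Type} [Field K] [Algebra ℂ K] {s w : K} {D : Derivation ℂ K K}

lemma finite_roots : {ω : ℂ | ω ^ 16 = -1}.Finite := by
  have h1 : (X ^ 16 - C (-1) : ℂ[X]) ≠ 0 := (monic_X_pow_sub_C (-1 : ℂ) (by norm_num)).ne_zero
  refine (finite_setOfPred_isRoot h1).subset ?_
  intro ω hω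
  have hω' : ω ^ 16 = -1 := hω
  change IsRoot _ ω
  rw [IsRoot.def, eval_sub, eval_pow, eval_X, eval_C, hω', sub_self]

lemma ne_zero_of_root {ω : ℂ} (h : ω ^ 16 = -1) : ω ≠ 0 := by
  rintro rfl
  norm_num at h

/-- there are finitely many infinite places -/
lemma finite_inf (h : Mdl s w D) : {P : Place K | Ge P 1 s}.Finite := by
  have h1 : {P : Place K | Ge P 1 s} ⊆ ⋃ ω ∈ {ω : ℂ | ω ^ 16 = -1}, {P : Place K | Cen P s w 0 ω} := by
    intro P hP
    obtain ⟨ω, hω, hc⟩ := exists_center_zero h.pt hP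
    exact Set.mem_biUnion (x := ω) hω hc
  refine (finite_roots.biUnion fun ω hω => ?_).subset h1
  refine Set.Subsingleton.finite fun P hP P' hP' => ?_
  exact place_unique h.pt h.gen hP hP' (ne_zero_of_root hω)

lemma regular_of_not {P : Place K} (hP : ¬ Ge P 1 s) : Ge P 0 s⁻¹ := by
  refine Or.inr ?_
  have h1 : ¬ 1 ≤ P.ord s := fun h => hP (Or.inr h)
  rw [ord_inv]
  omega

/-- The numbers of the curve. -/
theorem numbers (h : Mdl s w D) {P₀ : Place K} (hP₀ : P₀.ord s = 1) (ζ : ℂ) :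
    ∃ N : ℕ, 0 < N ∧ indexNumber (bvec ζ) (xvec s⁻¹ (w * s⁻¹)) (dq s D) = -N ∧
      conormalNumber (bvec ζ) (xvec s⁻¹ (w * s⁻¹)) (dq s D) = -N := by
  classical
  have hfin := finite_inf h
  have hmemF : ∀ P : Place K, P ∈ hfin.toFinset ↔ Ge P 1 s := fun P => hfin.mem_toFinset
  have hv : ∀ P : Place K, vectorOrder P (dq s D) = if Ge P 1 s then -13 else 0 := by
    intro P
    split_ifs with hP
    · obtain ⟨ω, hω, hc⟩ := exists_center_zero h.pt hP
      exact vectorOrder_inf h hc (ne_zero_of_root hω)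
    · obtain ⟨a₀, b₀, hc⟩ := exists_center h.pt' h.gen' (regular_of_not hP)
      exact vectorOrder_zero h.pt' h.gen' hc h.dq_q h.dq_r
  have hm : ∀ P : Place K, ((branchMult P (bvec ζ) (xvec s⁻¹ (w * s⁻¹)) : ℤ) - 1) =
      if Ge P 1 s then 14 else 0 := by
    intro P
    split_ifs with hP
    · obtain ⟨ω, hω, hc⟩ := exists_center_zero h.pt hP
      rw [branchMult_inf h hc (ne_zero_of_root hω)]
      norm_num
    · obtain ⟨a₀, b₀, hc⟩ := exists_center h.pt' h.gen' (regular_of_not hP)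
      rw [branchMult_one h.pt' h.gen' hc]
      norm_num
  have ht : ∀ P : Place K, tangentOrder P (bvec ζ) (xvec s⁻¹ (w * s⁻¹)) (dq s D) =
      if Ge P 1 s then 1 else 0 := by
    intro P
    split_ifs with hP
    · obtain ⟨ω, hω, hc⟩ := exists_center_zero h.pt hP
      exact tangentOrder_inf h hc (ne_zero_of_root hω) ζ
    · obtain ⟨a₀, b₀, hc⟩ := exists_center h.pt' h.gen' (regular_of_not hP)
      exact tangentOrder_zero h.pt' h.gen' hc h.dq_q h.dq_r ζ
  have key : ∀ c : ℤ, (∑ᶠ P : Place K, if Ge P 1 s then c else 0) = hfin.toFinset.card * c := by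
    intro c
    rw [finsum_eq_sum_of_support_subset (s := hfin.toFinset)]
    · rw [Finset.sum_congr rfl fun P hP => if_pos ((hmemF P).1 hP), Finset.sum_const,
        nsmul_eq_mul]
    · intro P hP
      rw [Finset.mem_coe, hmemF]
      by_contra hne
      exact hP (if_neg hne)
  refine ⟨hfin.toFinset.card, Finset.card_pos.2 ⟨P₀, (hmemF P₀).2 (Or.inr hP₀.ge)⟩, ?_, ?_⟩
  · rw [indexNumber, finsum_congr hv, finsum_congr hm, key, key]
    ring
  · rw [conormalNumber, finsum_congr ht, key, mul_one]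

end Pool.Agent.Y188.CN
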