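import Pool.Agent.Y188.CN.Fer

/-!
The places of the Fermat curve centred at an affine point with second coordinate different from
zero.
-/

set_option autoImplicit false

namespace Pool.Agent.Y188.CN

open Pool.Agent.TH144.CN Polynomial

variable {K : Type} [Field K] [Algebra ℂ K] {P : Place K} {a b : K} {a₀ b₀ : ℂ}

/-- every element of the field is a quotient of polynomials in `a` and `b` -/
def Gen (a b : K) : Prop := ∀ f : K, ∃ g h : ℂ[X][X], ev a b h ≠ 0 ∧ f = ev a b g / ev a b h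

lemma GenPt.ne (h : GenPt a b) (c : ℂ) : a - algebraMap ℂ K c ≠ 0 := by
  intro h0
  have h1 : a = algebraMap ℂ K c := sub_eq_zero.1 h0
  exact h.tr (h1 ▸ isAlgebraic_algebraMap c)

lemma Cen.eq (hE : GenPt a b) (h : Cen P a b a₀ b₀) : a₀ ^ 16 + b₀ ^ 16 = -1 := by
  by_contra hne
  have h1 : ev a₀ b₀ Fe ≠ 0 := by
    rw [ev_Fe]
    intro h0
    exact hne (by linear_combination h0)
  have h2 := (h.ord_ev h1).1
  rw [ev_Fe] at h2
  exact h2 (by linear_combination hE.eq)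

lemma loc_poly (hE : GenPt a b) (h : Cen P a b a₀ b₀) (hb : b₀ ≠ 0) (n : ℕ) :
    ∀ p : ℂ[X][X], ev a b p ≠ 0 → P.ord (ev a b p) ≤ n →
      ∃ (k : ℕ) (G H : ℂ[X][X]), ev a₀ b₀ G ≠ 0 ∧ ev a₀ b₀ H ≠ 0 ∧
        ev a b p = (a - algebraMap ℂ K a₀) ^ k * (ev a b G / ev a b H) := by
  have hbase : ∀ p : ℂ[X][X], ev a₀ b₀ p ≠ 0 →
      ∃ (k : ℕ) (G H : ℂ[X][X]), ev a₀ b₀ G ≠ 0 ∧ ev a₀ b₀ H ≠ 0 ∧
        ev a b p = (a - algebraMap ℂ K a₀) ^ k * (ev a b G / ev a b H) :=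
    fun p hp => ⟨0, p, 1, hp, by simp, by simp⟩
  have hord : ∀ p : ℂ[X][X], ev a b p ≠ 0 → ev a₀ b₀ p = 0 → 1 ≤ P.ord (ev a b p) := by
    intro p hp hp0
    have h1 := h.val p
    rw [hp0, map_zero, sub_zero] at h1
    exact h1.resolve_left hp
  induction n with
  | zero =>
    intro p hp hn
    by_cases h0 : ev a₀ b₀ p = 0
    · have := hord p hp h0
      push_cast at hn
      omega
    · exact hbase p h0
  | succ n ih =>
    intro p hp hn
    by_cases h0 : ev a₀ b₀ p = 0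
    swap
    · exact hbase p h0
    obtain ⟨g, q, hgq⟩ := exists_decomp p a₀ b₀
    rw [h0, C_0, C_0, zero_add] at hgq
    obtain ⟨Sb, hSb⟩ : ∃ Sb : ℂ[X][X],
        Sb = ∑ i ∈ Finset.range 16, X ^ i * (C (C b₀)) ^ (15 - i) := ⟨_, rfl⟩
    obtain ⟨Sa, hSa⟩ : ∃ Sa : ℂ[X][X],
        Sa = ∑ i ∈ Finset.range 16, (C X) ^ i * (C (C a₀)) ^ (15 - i) := ⟨_, rfl⟩
    have e1 : Sb * (X - C (C b₀)) = X ^ 16 - C (C b₀) ^ 16 := by
      rw [hSb]
      exact geom_sum₂_mul _ _ 16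
    have e2 : Sa * (C X - C (C a₀)) = C X ^ 16 - C (C a₀) ^ 16 := by
      rw [hSa]
      exact geom_sum₂_mul _ _ 16
    have f1 := congrArg (ev a b) e1
    have f2 := congrArg (ev a b) e2
    simp only [map_mul, map_sub, map_pow, ev_X, ev_C, aeval_X, aeval_C] at f1 f2
    have hSb0 : ev a₀ b₀ Sb ≠ 0 := by
      have : ev a₀ b₀ Sb = 16 * b₀ ^ 15 := by
        rw [hSb, map_sum]
        simp only [map_mul, map_pow, ev_X, ev_C, aeval_C]
        simp only [Algebra.algebraMap_self, RingHom.id_apply]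
        have : ∀ i ∈ Finset.range 16, b₀ ^ i * b₀ ^ (15 - i) = b₀ ^ 15 := by
          intro i hi
          rw [← pow_add]
          congr 1
          have := Finset.mem_range.1 hi
          omega
        rw [Finset.sum_congr rfl this]
        simp
      rw [this]
      exact mul_ne_zero (by norm_num) (pow_ne_zero _ hb)
    have hSbK := h.ord_ev hSb0
    have hab : b ^ 16 - (algebraMap ℂ K b₀) ^ 16 = -(a ^ 16 - (algebraMap ℂ K a₀) ^ 16) := by
      have h1 := hE.eq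
      have h2 := congrArg (algebraMap ℂ K) (h.eq hE)
      simp only [map_add, map_pow, map_neg, map_one] at h2
      linear_combination h1 - h2
    obtain ⟨p', hp'⟩ : ∃ p' : ℂ[X][X], p' = g * Sb - Sa * q := ⟨_, rfl⟩
    have hpe : ev a b p * ev a b Sb = (a - algebraMap ℂ K a₀) * ev a b p' := by
      rw [hgq, hp']
      simp only [map_add, map_mul, map_sub, ev_X, ev_C, aeval_X, aeval_C]
      linear_combination (ev a b q) * f1 + (ev a b q) * hab + (ev a b q) * f2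
    have ht0 : a - algebraMap ℂ K a₀ ≠ 0 := hE.ne a₀
    have hp'0 : ev a b p' ≠ 0 := by
      intro h1
      rw [h1, mul_zero] at hpe
      exact mul_ne_zero hp hSbK.1 hpe
    have hordp : P.ord (ev a b p) = P.ord (a - algebraMap ℂ K a₀) + P.ord (ev a b p') := by
      rw [← P.ord_mul ht0 hp'0, ← hpe, P.ord_mul hp hSbK.1, hSbK.2, add_zero]
    have ht1 : 1 ≤ P.ord (a - algebraMap ℂ K a₀) := h.1.resolve_left ht0
    obtain ⟨k, G, H, hG, hH, hk⟩ := ih p' hp'0 (by push_cast at hn; omega)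
    refine ⟨k + 1, G, H * Sb, hG, by rw [map_mul]; exact mul_ne_zero hH hSb0, ?_⟩
    have hHK := (h.ord_ev hH).1
    rw [hk] at hpe
    rw [map_mul, ← mul_div_assoc, eq_div_iff (mul_ne_zero hHK hSbK.1)]
    have e3 : ev a b p * (ev a b H * ev a b Sb) = (ev a b p * ev a b Sb) * ev a b H := by ring
    rw [e3, hpe]
    field_simp
    ring

/-- The structure of the function field near `P`. -/
theorem loc (hE : GenPt a b) (hgen : Gen a b) (h : Cen P a b a₀ b₀) (hb : b₀ ≠ 0) {f : K}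
    (hf : f ≠ 0) : ∃ (k : ℤ) (G H : ℂ[X][X]), ev a₀ b₀ G ≠ 0 ∧ ev a₀ b₀ H ≠ 0 ∧
      f = (a - algebraMap ℂ K a₀) ^ k * (ev a b G / ev a b H) := by
  obtain ⟨g, q, hq, hfq⟩ := hgen f
  have hg : ev a b g ≠ 0 := by
    intro h0
    exact hf (by rw [hfq, h0, zero_div])
  obtain ⟨k, G, H, hG, hH, hk⟩ := loc_poly hE h hb (P.ord (ev a b g)).toNat g hg
    (Int.self_le_toNat _)
  obtain ⟨k', G', H', hG', hH', hk'⟩ := loc_poly hE h hb (P.ord (ev a b q)).toNat q hq
    (Int.self_le_toNat _)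
  refine ⟨(k : ℤ) - k', G * H', H * G', by rw [map_mul]; exact mul_ne_zero hG hH',
    by rw [map_mul]; exact mul_ne_zero hH hG', ?_⟩
  have h1 := (h.ord_ev hG).1
  have h2 := (h.ord_ev hH).1
  have h3 := (h.ord_ev hG').1
  have h4 := (h.ord_ev hH').1
  have ht0 : a - algebraMap ℂ K a₀ ≠ 0 := hE.ne a₀
  rw [hfq, hk, hk', zpow_sub₀ ht0, zpow_natCast, zpow_natCast, map_mul, map_mul]
  field_simp

/-- `a - a₀` is a uniformizer. -/
theorem ord_t (hE : GenPt a b) (hgen : Gen a b) (h : Cen P a b a₀ b₀) (hb : b₀ ≠ 0) :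
    P.ord (a - algebraMap ℂ K a₀) = 1 := by
  obtain ⟨t, ht0, ht⟩ := P.surj
  obtain ⟨k, G, H, hG, hH, hk⟩ := loc hE hgen h hb ht0
  have ha0 : a - algebraMap ℂ K a₀ ≠ 0 := hE.ne a₀
  have h1 := h.1.resolve_left ha0
  have hz : ∀ k : ℤ, P.ord ((a - algebraMap ℂ K a₀) ^ k) =
      k * P.ord (a - algebraMap ℂ K a₀) := by
    intro k
    rcases k with k | k
    · rw [Int.ofNat_eq_natCast, zpow_natCast, ord_pow P ha0]
    · rw [zpow_negSucc, ord_inv, ord_pow P ha0, Int.negSucc_eq]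
      push_cast
      ring
  rw [hk, P.ord_mul (zpow_ne_zero k ha0) (div_ne_zero (h.ord_ev hG).1 (h.ord_ev hH).1),
    ord_div P (h.ord_ev hG).1 (h.ord_ev hH).1, (h.ord_ev hG).2, (h.ord_ev hH).2, hz] at ht
  have h2 : k * P.ord (a - algebraMap ℂ K a₀) = 1 := by omega
  exact (Int.eq_one_or_neg_one_of_mul_eq_one' h2).elim (fun h => h.2) (fun h => by omega)

lemma ord_eq (hE : GenPt a b) (hgen : Gen a b) (h : Cen P a b a₀ b₀) (hb : b₀ ≠ 0) {k : ℤ}
    {G H : ℂ[X][X]} (hG : ev a₀ b₀ G ≠ 0) (hH : ev a₀ b₀ H ≠ 0) :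
    P.ord ((a - algebraMap ℂ K a₀) ^ k * (ev a b G / ev a b H)) = k := by
  have ha0 : a - algebraMap ℂ K a₀ ≠ 0 := hE.ne a₀
  have h1 := ord_t hE hgen h hb
  have hz : ∀ k : ℤ, P.ord ((a - algebraMap ℂ K a₀) ^ k) = k := by
    intro k
    rcases k with k | k
    · rw [Int.ofNat_eq_natCast, zpow_natCast, ord_pow P ha0, h1, mul_one]
    · rw [zpow_negSucc, ord_inv, ord_pow P ha0, h1, Int.negSucc_eq]
      push_cast
      ring
  rw [P.ord_mul (zpow_ne_zero k ha0) (div_ne_zero (h.ord_ev hG).1 (h.ord_ev hH).1),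
    ord_div P (h.ord_ev hG).1 (h.ord_ev hH).1, (h.ord_ev hG).2, (h.ord_ev hH).2, hz]
  ring

lemma place_ext {P P' : Place K} (h : ∀ f, f ≠ 0 → P.ord f = P'.ord f) : P = P' := by
  have h1 : P.ord = P'.ord := by
    funext f
    by_cases hf : f = 0
    · rw [hf, P.ord_zero, P'.ord_zero]
    · exact h f hf
  cases P
  cases P'
  simpa using h1

/-- A place is determined by its centre. -/
theorem place_unique (hE : GenPt a b) (hgen : Gen a b) {P P' : Place K} (h : Cen P a b a₀ b₀)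
    (h' : Cen P' a b a₀ b₀) (hb : b₀ ≠ 0) : P = P' := by
  refine place_ext fun f hf => ?_
  obtain ⟨k, G, H, hG, hH, rfl⟩ := loc hE hgen h hb hf
  rw [ord_eq hE hgen h hb hG hH, ord_eq hE hgen h' hb hG hH]

/-! ### Derivations -/

variable {D : Derivation ℂ K K}

lemma ge_D_ev (ha : Ge P 0 a) (hb : Ge P 0 b) (hDa : Ge P 0 (D a)) (hDb : Ge P 0 (D b))
    (p : ℂ[X][X]) : Ge P 0 (D (ev a b p)) := by
  have hpow : ∀ {c : K}, Ge P 0 c → Ge P 0 (D c) → ∀ n : ℕ, Ge P 0 (D (c ^ n)) := by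
    intro c hc hDc n
    induction n with
    | zero => simp [Ge.zero]
    | succ n ih =>
      rw [pow_succ, D.leibniz, smul_eq_mul, smul_eq_mul]
      exact ((hc.pow n).mul hDc).add (hc.mul ih)
  have hC : ∀ q : ℂ[X], Ge P 0 (D (aeval a q)) := by
    intro q
    induction q using Polynomial.induction_on' with
    | add p q hp hq => rw [map_add, map_add]; exact hp.add hq
    | monomial n c =>
      rw [← C_mul_X_pow_eq_monomial, map_mul, map_pow, aeval_X, aeval_C, D.leibniz,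
        D.map_algebraMap, smul_zero, add_zero, smul_eq_mul]
      exact (Ge.const c).mul (hpow ha hDa n)
  have hC' : ∀ q : ℂ[X], Ge P 0 (aeval a q) := by
    intro q
    have := ge_ev ha hb (C q)
    rwa [ev_C] at this
  induction p using Polynomial.induction_on' with
  | add p q hp hq => rw [map_add, map_add]; exact hp.add hq
  | monomial n c =>
    rw [← C_mul_X_pow_eq_monomial, map_mul, map_pow, ev_X, ev_C, D.leibniz, smul_eq_mul,
      smul_eq_mul]
    exact ((hC' c).mul (hpow hb hDb n)).add ((hb.pow n).mul (hC c))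

lemma ge_D_unit (h : Cen P a b a₀ b₀) (hDa : Ge P 0 (D a)) (hDb : Ge P 0 (D b))
    {G H : ℂ[X][X]} (hH : ev a₀ b₀ H ≠ 0) :
    Ge P 0 (D (ev a b G / ev a b H)) := by
  have h1 := h.ord_ev hH
  rw [Derivation.leibniz_div, smul_eq_mul, smul_eq_mul, smul_eq_mul]
  have h2 : Ge P 0 ((ev a b H)⁻¹ ^ 2) :=
    Ge.pow (Or.inr (by rw [ord_inv, h1.2, neg_zero])) 2
  have h3 := ((ge_ev h.reg.1 h.reg.2 H).mul (ge_D_ev h.reg.1 h.reg.2 hDa hDb G)).sub
    ((ge_ev h.reg.1 h.reg.2 G).mul (ge_D_ev h.reg.1 h.reg.2 hDa hDb H))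
  exact h2.mul h3

/-- The derivation preserves the local ring. -/
theorem ge_D (hE : GenPt a b) (hgen : Gen a b) (h : Cen P a b a₀ b₀) (hb : b₀ ≠ 0)
    (hDa : D a = b ^ 15) (hDb : D b = -a ^ 15) {f : K} (hf : Ge P 0 f) : Ge P 0 (D f) := by
  have hDa' : Ge P 0 (D a) := by rw [hDa]; exact h.reg.2.pow 15
  have hDb' : Ge P 0 (D b) := by rw [hDb]; exact (h.reg.1.pow 15).neg
  rcases eq_or_ne f 0 with h0 | h0
  · rw [h0, map_zero]
    exact Ge.zero _
  obtain ⟨k, G, H, hG, hH, hk⟩ := loc hE hgen h hb h0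
  have h1 : 0 ≤ k := by
    have := hf.resolve_left h0
    rwa [hk, ord_eq hE hgen h hb hG hH] at this
  obtain ⟨n, rfl⟩ := Int.eq_ofNat_of_zero_le h1
  have ht : Ge P 0 (a - algebraMap ℂ K a₀) := h.1.mono (by norm_num)
  have hDt : Ge P 0 (D (a - algebraMap ℂ K a₀)) := by
    rw [map_sub, D.map_algebraMap, sub_zero]
    exact hDa'
  have hpow : ∀ n : ℕ, Ge P 0 (D ((a - algebraMap ℂ K a₀) ^ n)) := by
    intro n
    induction n with
    | zero => simp [Ge.zero]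
    | succ n ih =>
      rw [pow_succ, D.leibniz, smul_eq_mul, smul_eq_mul]
      exact ((ht.pow n).mul hDt).add (ht.mul ih)
  rw [hk, zpow_natCast, D.leibniz, smul_eq_mul, smul_eq_mul]
  have hu : Ge P 0 (ev a b G / ev a b H) := Or.inr (by
    rw [ord_div P (h.ord_ev hG).1 (h.ord_ev hH).1, (h.ord_ev hG).2, (h.ord_ev hH).2]
    simp)
  exact ((ht.pow n).mul (ge_D_unit h hDa' hDb' hH)).add (hu.mul (hpow n))

/-- The derivation does not vanish at `P`. -/
theorem ord_D_unif (hE : GenPt a b) (hgen : Gen a b) (h : Cen P a b a₀ b₀) (hb : b₀ ≠ 0)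
    (hDa : D a = b ^ 15) (hDb : D b = -a ^ 15) {f : K} (hf : P.ord f = 1) :
    D f ≠ 0 ∧ P.ord (D f) = 0 := by
  have hDa' : Ge P 0 (D a) := by rw [hDa]; exact h.reg.2.pow 15
  have hDb' : Ge P 0 (D b) := by rw [hDb]; exact (h.reg.1.pow 15).neg
  have h0 : f ≠ 0 := by
    rintro rfl
    rw [P.ord_zero] at hf
    omega
  obtain ⟨k, G, H, hG, hH, hk⟩ := loc hE hgen h hb h0
  have h1 : k = 1 := by rwa [hk, ord_eq hE hgen h hb hG hH] at hf
  subst h1
  rw [zpow_one] at hk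
  have hu0 : ev a b G / ev a b H ≠ 0 := div_ne_zero (h.ord_ev hG).1 (h.ord_ev hH).1
  have hu : P.ord (ev a b G / ev a b H) = 0 := by
    rw [ord_div P (h.ord_ev hG).1 (h.ord_ev hH).1, (h.ord_ev hG).2, (h.ord_ev hH).2]
    simp
  have hbX : ev a₀ b₀ (X ^ 15) ≠ 0 := by
    rw [map_pow, ev_X]
    exact pow_ne_zero _ hb
  have hbK := h.ord_ev hbX
  rw [map_pow, ev_X] at hbK
  refine ord_eq_of_sub (g := ev a b G / ev a b H * b ^ 15) (mul_ne_zero hu0 hbK.1)
    (by rw [P.ord_mul hu0 hbK.1, hu, hbK.2, add_zero]) ?_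
  have e : D f - ev a b G / ev a b H * b ^ 15 =
      (a - algebraMap ℂ K a₀) * D (ev a b G / ev a b H) := by
    rw [hk, D.leibniz, smul_eq_mul, smul_eq_mul, map_sub, D.map_algebraMap, sub_zero, hDa]
    ring
  rw [e]
  have := h.1.mul (ge_D_unit h hDa' hDb' (G := G) hH)
  simpa using this

/-- The order of a multiple of the derivation. -/
theorem vectorOrder_smul (hE : GenPt a b) (hgen : Gen a b) (h : Cen P a b a₀ b₀) (hb : b₀ ≠ 0)
    (hDa : D a = b ^ 15) (hDb : D b = -a ^ 15) {c : K} (hc : c ≠ 0) :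
    vectorOrder P (c • D) = P.ord c := by
  have hset : {m : ℤ | ∃ t : K, P.ord t = 1 ∧ P.ord ((c • D) t) = m} = {P.ord c} := by
    ext m
    simp only [Set.mem_ofPred_eq, Set.mem_singleton_iff]
    constructor
    · rintro ⟨t, ht, rfl⟩
      obtain ⟨h1, h2⟩ := ord_D_unif hE hgen h hb hDa hDb ht
      rw [Derivation.smul_apply, smul_eq_mul, P.ord_mul hc h1, h2, add_zero]
    · rintro rfl
      refine ⟨_, ord_t hE hgen h hb, ?_⟩
      obtain ⟨h1, h2⟩ := ord_D_unif hE hgen h hb hDa hDb (ord_t hE hgen h hb)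
      rw [Derivation.smul_apply, smul_eq_mul, P.ord_mul hc h1, h2, add_zero]
  rw [vectorOrder, hset, csInf_singleton]

end Pool.Agent.Y188.CN
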