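import Pool.Agent.Y188.CN.Cent

/-!
The local contributions to the intersection number of the curve `(1 : q : q ^ 15 r)`, where
`q ^ 16 + r ^ 16 = -1`.
-/

set_option autoImplicit false

namespace Pool.Agent.Y188.CN

open Pool.Agent.TH144.CN Polynomial

variable {K : Type} [Field K] [Algebra ℂ K]

/-- the generic point of the first factor -/
def bvec (ζ : ℂ) : Fin 3 → K := ![1, 0, algebraMap ℂ K ζ]

/-- the generic point of the second factor -/
def xvec (q r : K) : Fin 3 → K := ![1, q, q ^ 15 * r]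

/-- The data of the function field. -/
structure Mdl (s w : K) (D : Derivation ℂ K K) : Prop where
  pt : GenPt s w
  gen : Gen s w
  ds : D s = w ^ 15
  dw : D w = -s ^ 15

section algebra

variable {s w : K} {D : Derivation ℂ K K}

lemma Mdl.s_ne (h : Mdl s w D) : s ≠ 0 := by
  have := h.pt.ne 0
  rwa [map_zero, sub_zero] at this

lemma Mdl.pt' (h : Mdl s w D) : GenPt s⁻¹ (w * s⁻¹) := by
  refine ⟨?_, fun h1 => h.pt.tr ?_⟩
  · have h0 := h.s_ne
    field_simp
    linear_combination h.pt.eq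
  · have := h1.inv
    rwa [inv_inv] at this

lemma Mdl.gen' (h : Mdl s w D) : Gen s⁻¹ (w * s⁻¹) := by
  have h0 := h.s_ne
  have h1 : IsQuot s⁻¹ (w * s⁻¹) s := by
    have := (IsQuot.fst (a := s⁻¹) (b := w * s⁻¹)).inv
    rwa [inv_inv] at this
  refine h.gen.of_isQuot h1 ?_
  have := (IsQuot.snd (a := s⁻¹) (b := w * s⁻¹)).mul h1
  rwa [mul_assoc, inv_mul_cancel₀ h0, mul_one] at this

lemma GenPt.swap {a b : K} (h : GenPt a b) : GenPt b a := by
  refine ⟨by rw [add_comm]; exact h.eq, fun h1 => h.tr ?_⟩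
  have h2 : IsAlgebraic ℂ (a ^ 16) := by
    have h3 : a ^ 16 = -1 - b ^ 16 := by linear_combination h.eq
    rw [h3]
    exact isAlgebraic_one.neg.sub (h1.pow 16)
  exact h2.of_pow (by norm_num)

lemma Gen.swap {a b : K} (h : Gen a b) : Gen b a := h.of_isQuot IsQuot.snd IsQuot.fst

/-- the derivation adapted to `q` and `r` -/
noncomputable def dq (s : K) (D : Derivation ℂ K K) : Derivation ℂ K K := (-(s⁻¹ ^ 13)) • D

lemma Mdl.dq_q (h : Mdl s w D) : dq s D s⁻¹ = (w * s⁻¹) ^ 15 := by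
  have h0 := h.s_ne
  rw [dq, Derivation.smul_apply, Derivation.leibniz_inv, h.ds, smul_eq_mul, smul_eq_mul]
  field_simp

lemma Mdl.dq_r (h : Mdl s w D) : dq s D (w * s⁻¹) = -s⁻¹ ^ 15 := by
  have h0 := h.s_ne
  rw [Derivation.leibniz, h.dq_q, dq, Derivation.smul_apply, h.dw]
  simp only [smul_eq_mul]
  field_simp
  linear_combination h.pt.eq

end algebra

/-! ### Affine coordinates -/

section coords

variable {P : Place K}

lemma affineCoords_bvec {ζ : ℂ} {f : K} (hf : f ∈ affineCoords P (bvec ζ)) :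
    ∃ c : ℂ, f = algebraMap ℂ K c := by
  obtain ⟨i, j, -, -, rfl⟩ := hf
  have h : ∀ i : Fin 3, ∃ c : ℂ, (bvec ζ : Fin 3 → K) i = algebraMap ℂ K c := by
    intro i
    fin_cases i
    · exact ⟨1, by simp [bvec]⟩
    · exact ⟨0, by simp [bvec]⟩
    · exact ⟨ζ, by simp [bvec]⟩
  obtain ⟨c, hc⟩ := h i
  obtain ⟨d, hd⟩ := h j
  exact ⟨d / c, by rw [hc, hd, map_div₀]⟩

lemma ge_affineCoords {x : Fin 3 → K} {f : K} (hf : f ∈ affineCoords P x) : Ge P 0 f := by
  obtain ⟨i, j, hi, hmin, rfl⟩ := hf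
  rcases eq_or_ne (x j) 0 with h0 | h0
  · exact Or.inl (by rw [h0, zero_div])
  · refine Or.inr ?_
    rw [ord_div P h0 hi]
    have := hmin j h0
    omega

lemma not_pos_const {f : K} {c d : ℂ} (hf : f = algebraMap ℂ K c)
    (h0 : f - algebraMap ℂ K d ≠ 0) : P.ord (f - algebraMap ℂ K d) = 0 := by
  rw [hf, ← map_sub] at h0 ⊢
  exact P.ord_const fun h => h0 (by rw [h, map_zero])

lemma coord_mem {q r : K} (hq : Ge P 0 q) (hr : Ge P 0 r) {j : Fin 3} :
    xvec q r j ∈ affineCoords P (xvec q r) := by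
  refine ⟨0, j, by simp [xvec], ?_, by simp [xvec]⟩
  intro l hl
  have h0 : P.ord (xvec q r 0) = 0 := ord_one P
  rw [h0]
  have h1 : Ge P 0 (xvec q r l) := by
    fin_cases l
    · exact Ge.one
    · exact hq
    · exact (hq.pow 15).mul hr
  exact h1.resolve_left hl

end coords

/-! ### The local numbers at the affine places -/

section affine

variable {P : Place K} {q r : K} {E : Derivation ℂ K K} {a₀ b₀ : ℂ}

lemma branchMult_one (hE : GenPt q r) (hgen : Gen q r) (h : Cen P q r a₀ b₀) (ζ : ℂ) :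
    branchMult P (bvec ζ) (xvec q r) = 1 := by
  have hmem : (1 : ℕ) ∈ {m : ℕ | 0 < m ∧ ∃ f ∈ affineCoords P (bvec ζ) ∪
      affineCoords P (xvec q r), ∃ c : ℂ, f - algebraMap ℂ K c ≠ 0 ∧
        P.ord (f - algebraMap ℂ K c) = m} := by
    refine ⟨one_pos, ?_⟩
    by_cases hb : b₀ = 0
    · have hsw : Cen P r q b₀ a₀ := ⟨h.2, h.1⟩
      have ha : a₀ ≠ 0 := by
        rintro rfl
        have := h.eq hE
        rw [hb] at this
        norm_num at this
      have h1 := ord_t hE.swap hgen.swap hsw ha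
      have h2 := hE.swap.ne b₀
      rw [hb, map_zero, sub_zero] at h1 h2
      have h3 := ord_eq_zero_of_val ha h.1
      refine ⟨xvec q r 2, Or.inr (coord_mem h.reg.1 h.reg.2), 0, ?_, ?_⟩
      · rw [map_zero, sub_zero]
        exact mul_ne_zero (pow_ne_zero _ h3.1) h2
      · rw [map_zero, sub_zero]
        change P.ord (q ^ 15 * r) = _
        rw [P.ord_mul (pow_ne_zero _ h3.1) h2, ord_pow P h3.1, h3.2, h1]
        norm_num
    · refine ⟨xvec q r 1, Or.inr (coord_mem h.reg.1 h.reg.2), a₀, hE.ne a₀, ?_⟩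
      rw [Nat.cast_one]
      exact ord_t hE hgen h hb
  refine le_antisymm (Nat.sInf_le hmem) ?_
  have h1 := Nat.sInf_mem ⟨1, hmem⟩
  exact h1.1

lemma neg_one_smul_neg (E : Derivation ℂ K K) : E = (-1 : K) • (-E) := by
  ext f
  simp

lemma vectorOrder_zero (hE : GenPt q r) (hgen : Gen q r) (h : Cen P q r a₀ b₀)
    (hq : E q = r ^ 15) (hr : E r = -q ^ 15) : vectorOrder P E = 0 := by
  by_cases hb : b₀ = 0
  · have hsw : Cen P r q b₀ a₀ := ⟨h.2, h.1⟩
    have ha : a₀ ≠ 0 := by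
      rintro rfl
      have := h.eq hE
      rw [hb] at this
      norm_num at this
    rw [neg_one_smul_neg E, vectorOrder_smul hE.swap hgen.swap hsw ha (D := -E)
      (by rw [Derivation.neg_apply, hr, neg_neg]) (by rw [Derivation.neg_apply, hq])
      (neg_ne_zero.2 one_ne_zero), ord_neg, ord_one]
  · have := vectorOrder_smul hE hgen h hb hq hr (c := 1) one_ne_zero
    rwa [one_smul, ord_one] at this

lemma tangentOrder_zero (hE : GenPt q r) (hgen : Gen q r) (h : Cen P q r a₀ b₀)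
    (hq : E q = r ^ 15) (hr : E r = -q ^ 15) (ζ : ℂ) :
    tangentOrder P (bvec ζ) (xvec q r) E = 0 := by
  have hge : ∀ f : K, Ge P 0 f → Ge P 0 (E f) := by
    intro f hf
    by_cases hb : b₀ = 0
    · have hsw : Cen P r q b₀ a₀ := ⟨h.2, h.1⟩
      have ha : a₀ ≠ 0 := by
        rintro rfl
        have := h.eq hE
        rw [hb] at this
        norm_num at this
      have := (ge_D hE.swap hgen.swap hsw ha (D := -E)
        (by rw [Derivation.neg_apply, hr, neg_neg]) (by rw [Derivation.neg_apply, hq]) hf).neg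
      rwa [Derivation.neg_apply, neg_neg] at this
    · exact ge_D hE hgen h hb hq hr hf
  have hmem : (0 : ℤ) ∈ {m : ℤ | ∃ f ∈ affineCoords P (bvec ζ) ∪ affineCoords P (xvec q r),
      E f ≠ 0 ∧ P.ord (E f) = m} := by
    by_cases hb : b₀ = 0
    · have ha : a₀ ≠ 0 := by
        rintro rfl
        have := h.eq hE
        rw [hb] at this
        norm_num at this
      have h3 := ord_eq_zero_of_val ha h.1
      have hr1 : Ge P 1 r := by
        have := h.2
        rwa [hb, map_zero, sub_zero] at this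
      have e : E (xvec q r 2) = 15 * q ^ 14 * r ^ 16 - q ^ 30 := by
        change E (q ^ 15 * r) = _
        rw [Derivation.leibniz, Derivation.leibniz_pow, hq, hr]
        simp only [smul_eq_mul, nsmul_eq_mul]
        push_cast
        ring
      have h4 : E (xvec q r 2) ≠ 0 ∧ P.ord (E (xvec q r 2)) = 0 := by
        refine ord_eq_of_sub (g := -q ^ 30) (neg_ne_zero.2 (pow_ne_zero _ h3.1))
          (by rw [ord_neg, ord_pow P h3.1, h3.2, mul_zero]) ?_
        rw [e]
        have e2 : 15 * q ^ 14 * r ^ 16 - q ^ 30 - -q ^ 30 = algebraMap ℂ K 15 * q ^ 14 * r ^ 15 * r := by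
          rw [map_ofNat]
          ring
        rw [e2]
        have := (((Ge.const (P := P) 15).mul (h.reg.1.pow 14)).mul (h.reg.2.pow 15)).mul hr1
        simpa using this
      exact ⟨_, Or.inr (coord_mem h.reg.1 h.reg.2), h4⟩
    · have h4 : r ≠ 0 ∧ P.ord r = 0 := ord_eq_zero_of_val hb h.2
      refine ⟨xvec q r 1, Or.inr (coord_mem h.reg.1 h.reg.2), ?_, ?_⟩
      · change E q ≠ 0
        rw [hq]
        exact pow_ne_zero _ h4.1
      · change P.ord (E q) = 0
        rw [hq, ord_pow P h4.1, h4.2, mul_zero]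
  refine IsLeast.csInf_eq ⟨hmem, ?_⟩
  rintro m ⟨f, hf, hf0, rfl⟩
  rcases hf with hf | hf
  · obtain ⟨c, rfl⟩ := affineCoords_bvec hf
    exact absurd (E.map_algebraMap c) hf0
  · exact (hge f (ge_affineCoords hf)).resolve_left hf0

end affine

/-! ### The local numbers at the infinite places -/

section infinite

variable {P : Place K} {s w : K} {D : Derivation ℂ K K} {ω : ℂ}

lemma ord_s (h : Mdl s w D) (hc : Cen P s w 0 ω) (hω : ω ≠ 0) : P.ord s = 1 := by
  have := ord_t h.pt h.gen hc hω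
  rwa [map_zero, sub_zero] at this

lemma ord_w (hc : Cen P s w 0 ω) (hω : ω ≠ 0) : w ≠ 0 ∧ P.ord w = 0 :=
  ord_eq_zero_of_val hω hc.2

lemma vectorOrder_inf (h : Mdl s w D) (hc : Cen P s w 0 ω) (hω : ω ≠ 0) :
    vectorOrder P (dq s D) = -13 := by
  have h0 := h.s_ne
  rw [dq, vectorOrder_smul h.pt h.gen hc hω h.ds h.dw
    (neg_ne_zero.2 (pow_ne_zero _ (inv_ne_zero h0))), ord_neg, ord_pow P (inv_ne_zero h0),
    ord_inv, ord_s h hc hω]
  norm_num

/-- the affine coordinates at an infinite place -/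
lemma affineCoords_inf (h : Mdl s w D) (hc : Cen P s w 0 ω) (hω : ω ≠ 0) :
    affineCoords P (xvec s⁻¹ (w * s⁻¹)) = {s ^ 16 / w, s ^ 15 / w, 1} := by
  have h0 := h.s_ne
  have hs := ord_s h hc hω
  obtain ⟨hw0, hw⟩ := ord_w hc hω
  have e2 : s⁻¹ ^ 15 * (w * s⁻¹) = w * s⁻¹ ^ 16 := by ring
  have n2 : w * s⁻¹ ^ 16 ≠ 0 := mul_ne_zero hw0 (pow_ne_zero _ (inv_ne_zero h0))
  have o0 : P.ord (xvec s⁻¹ (w * s⁻¹) 0) = 0 := ord_one P
  have o1 : P.ord (xvec s⁻¹ (w * s⁻¹) 1) = -1 := by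
    change P.ord s⁻¹ = -1
    rw [ord_inv, hs]
  have o2 : P.ord (xvec s⁻¹ (w * s⁻¹) 2) = -16 := by
    change P.ord (s⁻¹ ^ 15 * (w * s⁻¹)) = -16
    rw [e2, P.ord_mul hw0 (pow_ne_zero _ (inv_ne_zero h0)), hw, ord_pow P (inv_ne_zero h0),
      ord_inv, hs]
    norm_num
  have hv2 : xvec s⁻¹ (w * s⁻¹) 2 ≠ 0 := by
    change s⁻¹ ^ 15 * (w * s⁻¹) ≠ 0
    rw [e2]
    exact n2
  have d0 : xvec s⁻¹ (w * s⁻¹) 0 / xvec s⁻¹ (w * s⁻¹) 2 = s ^ 16 / w := by
    change 1 / (s⁻¹ ^ 15 * (w * s⁻¹)) = _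
    field_simp
  have d1 : xvec s⁻¹ (w * s⁻¹) 1 / xvec s⁻¹ (w * s⁻¹) 2 = s ^ 15 / w := by
    change s⁻¹ / (s⁻¹ ^ 15 * (w * s⁻¹)) = _
    field_simp
  have d2 : xvec s⁻¹ (w * s⁻¹) 2 / xvec s⁻¹ (w * s⁻¹) 2 = 1 := div_self hv2
  ext f
  simp only [Set.mem_insert_iff, Set.mem_singleton_iff]
  constructor
  · rintro ⟨i, j, hi, hmin, rfl⟩
    have hi2 : i = 2 := by
      have := hmin 2 hv2
      rw [o2] at this
      fin_cases i
      · change P.ord (xvec s⁻¹ (w * s⁻¹) 0) ≤ -16 at this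
        omega
      · change P.ord (xvec s⁻¹ (w * s⁻¹) 1) ≤ -16 at this
        omega
      · rfl
    subst hi2
    fin_cases j
    · exact Or.inl d0
    · exact Or.inr (Or.inl d1)
    · exact Or.inr (Or.inr d2)
  · have hmin : ∀ l, xvec s⁻¹ (w * s⁻¹) l ≠ 0 →
        P.ord (xvec s⁻¹ (w * s⁻¹) 2) ≤ P.ord (xvec s⁻¹ (w * s⁻¹) l) := by
      intro l _
      rw [o2]
      fin_cases l
      · change _ ≤ P.ord (xvec s⁻¹ (w * s⁻¹) 0)
        omega
      · change _ ≤ P.ord (xvec s⁻¹ (w * s⁻¹) 1)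
        omega
      · change _ ≤ P.ord (xvec s⁻¹ (w * s⁻¹) 2)
        omega
    rintro (rfl | rfl | rfl)
    · exact ⟨2, 0, hv2, hmin, d0.symm⟩
    · exact ⟨2, 1, hv2, hmin, d1.symm⟩
    · exact ⟨2, 2, hv2, hmin, d2.symm⟩

lemma branchMult_inf (h : Mdl s w D) (hc : Cen P s w 0 ω) (hω : ω ≠ 0) (ζ : ℂ) :
    branchMult P (bvec ζ) (xvec s⁻¹ (w * s⁻¹)) = 15 := by
  have h0 := h.s_ne
  have hs := ord_s h hc hω
  obtain ⟨hw0, hw⟩ := ord_w hc hω
  have o : ∀ n : ℕ, s ^ n / w ≠ 0 ∧ P.ord (s ^ n / w) = n := by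
    intro n
    refine ⟨div_ne_zero (pow_ne_zero _ h0) hw0, ?_⟩
    rw [ord_div P (pow_ne_zero _ h0) hw0, ord_pow P h0, hs, hw]
    ring
  have hlow : ∀ (n m : ℕ) (c : ℂ), 15 ≤ n → 0 < m → s ^ n / w - algebraMap ℂ K c ≠ 0 →
      P.ord (s ^ n / w - algebraMap ℂ K c) = m → 15 ≤ m := by
    intro n m c hn hm hne hord
    rcases eq_or_ne c 0 with hc0 | hc0
    · rw [hc0, map_zero, sub_zero, (o n).2] at hord
      have : n = m := by exact_mod_cast hord
      omega
    · exfalso
      have h1 := ord_eq_of_sub (P := P) (f := s ^ n / w - algebraMap ℂ K c)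
        (g := algebraMap ℂ K (-c)) (m := 0) (by
          rw [Ne, map_eq_zero]
          exact neg_ne_zero.2 hc0) (P.ord_const (neg_ne_zero.2 hc0)) (by
          have e : s ^ n / w - algebraMap ℂ K c - algebraMap ℂ K (-c) = s ^ n / w := by
            rw [map_neg]
            ring
          rw [e]
          exact Or.inr (by rw [(o n).2]; push_cast; omega))
      rw [h1.2] at hord
      have : m = 0 := by exact_mod_cast hord.symm
      omega
  refine IsLeast.csInf_eq ⟨⟨by norm_num, s ^ 15 / w, Or.inr ?_, 0, ?_, ?_⟩, ?_⟩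
  · rw [affineCoords_inf h hc hω]
    simp
  · rw [map_zero, sub_zero]
    exact (o 15).1
  · rw [map_zero, sub_zero]
    exact (o 15).2
  · rintro m ⟨hm, f, hf, c, hne, hord⟩
    rcases hf with hf | hf
    · obtain ⟨d, hd⟩ := affineCoords_bvec hf
      rw [not_pos_const hd hne] at hord
      have : m = 0 := by exact_mod_cast hord.symm
      omega
    · rw [affineCoords_inf h hc hω] at hf
      rcases hf with rfl | rfl | hf
      · exact hlow 16 m c (by norm_num) hm hne hord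
      · exact hlow 15 m c (by norm_num) hm hne hord
      · have hf1 : f = algebraMap ℂ K 1 := by
          rw [map_one]
          exact hf
        rw [not_pos_const hf1 hne] at hord
        have : m = 0 := by exact_mod_cast hord.symm
        omega

lemma tangentOrder_inf (h : Mdl s w D) (hc : Cen P s w 0 ω) (hω : ω ≠ 0) (ζ : ℂ) :
    tangentOrder P (bvec ζ) (xvec s⁻¹ (w * s⁻¹)) (dq s D) = 1 := by
  have h0 := h.s_ne
  have hs := ord_s h hc hω
  obtain ⟨hw0, hw⟩ := ord_w hc hω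
  have hwi : Ge P 0 w⁻¹ := Or.inr (by rw [ord_inv, hw, neg_zero])
  have hs1 : Ge P 1 s := Or.inr hs.ge
  have e15 : dq s D (s ^ 15 / w) = s * ((15 + 14 * s ^ 16) * (w⁻¹) ^ 2) := by
    rw [dq, Derivation.smul_apply, Derivation.leibniz_div, Derivation.leibniz_pow, h.ds, h.dw]
    simp only [smul_eq_mul, nsmul_eq_mul]
    push_cast
    have hw16 : w ^ 16 = -1 - s ^ 16 := by linear_combination h.pt.eq
    field_simp
    ring_nf
    rw [hw16]
    ring
  have e16 : dq s D (s ^ 16 / w) = s * (s * (16 + 15 * s ^ 16) * (w⁻¹) ^ 2) := by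
    rw [dq, Derivation.smul_apply, Derivation.leibniz_div, Derivation.leibniz_pow, h.ds, h.dw]
    simp only [smul_eq_mul, nsmul_eq_mul]
    push_cast
    have hw16 : w ^ 16 = -1 - s ^ 16 := by linear_combination h.pt.eq
    field_simp
    ring_nf
    rw [hw16]
    ring
  have hu : (15 + 14 * s ^ 16 : K) ≠ 0 ∧ P.ord (15 + 14 * s ^ 16 : K) = 0 := by
    refine ord_eq_zero_of_val (c := 15) (by norm_num) ?_
    have e : (15 + 14 * s ^ 16 : K) - algebraMap ℂ K 15 = algebraMap ℂ K 14 * s ^ 15 * s := by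
      rw [map_ofNat, map_ofNat]
      ring
    rw [e]
    have := ((Ge.const (P := P) 14).mul (hc.reg.1.pow 15)).mul hs1
    simpa using this
  refine IsLeast.csInf_eq ⟨⟨s ^ 15 / w, Or.inr ?_, ?_, ?_⟩, ?_⟩
  · rw [affineCoords_inf h hc hω]
    simp
  · rw [e15]
    exact mul_ne_zero h0 (mul_ne_zero hu.1 (pow_ne_zero _ (inv_ne_zero hw0)))
  · rw [e15, P.ord_mul h0 (mul_ne_zero hu.1 (pow_ne_zero _ (inv_ne_zero hw0))),
      P.ord_mul hu.1 (pow_ne_zero _ (inv_ne_zero hw0)), hu.2, ord_pow P (inv_ne_zero hw0),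
      ord_inv, hw, hs]
    norm_num
  · rintro m ⟨f, hf, hf0, rfl⟩
    rcases hf with hf | hf
    · obtain ⟨c, rfl⟩ := affineCoords_bvec hf
      exact absurd ((dq s D).map_algebraMap c) hf0
    · rw [affineCoords_inf h hc hω] at hf
      rcases hf with rfl | rfl | hf
      · have h1 : Ge P 1 (dq s D (s ^ 16 / w)) := by
          rw [e16]
          have h2 : Ge P 0 (16 + 15 * s ^ 16 : K) := by
            have := (Ge.const (P := P) 16).add ((Ge.const (P := P) 15).mul (hc.reg.1.pow 16))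
            rw [map_ofNat, map_ofNat] at this
            simpa using this
          have := hs1.mul ((hc.reg.1.mul h2).mul (hwi.pow 2))
          simpa using this
        exact h1.resolve_left hf0
      · have h1 : Ge P 1 (dq s D (s ^ 15 / w)) := by
          rw [e15]
          have h2 : Ge P 0 (15 + 14 * s ^ 16 : K) := Or.inr hu.2.ge
          have := hs1.mul (h2.mul (hwi.pow 2))
          simpa using this
        exact h1.resolve_left hf0
      · rw [Set.mem_singleton_iff] at hf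
        rw [hf] at hf0
        exact absurd (Derivation.map_one_eq_zero _) hf0

end infinite

end Pool.Agent.Y188.CN
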