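import Pool.Agent.TH144.CN.Defs

/-!
Elementary facts on the places of a function field of one variable, and the evaluation of
polynomials in two variables near the centre of a place.
-/

set_option autoImplicit false

namespace Pool.Agent.Y188.CN

open Pool.Agent.TH144.CN Polynomial

section place

variable {K : Type} [Field K] [Algebra ℂ K] (P : Place K)

lemma ord_one : P.ord 1 = 0 := by
  have h := P.ord_mul (f := 1) (g := 1) one_ne_zero one_ne_zero
  rw [mul_one] at h
  omega

lemma ord_neg (f : K) : P.ord (-f) = P.ord f := by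
  by_cases hf : f = 0
  · simp [hf]
  · have h1 : -f = algebraMap ℂ K (-1) * f := by simp
    have h2 : algebraMap ℂ K (-1) ≠ 0 := by simp
    rw [h1, P.ord_mul h2 hf, P.ord_const (by norm_num : (-1 : ℂ) ≠ 0), zero_add]

lemma ord_inv (f : K) : P.ord f⁻¹ = -P.ord f := by
  by_cases hf : f = 0
  · simp [hf, P.ord_zero]
  · have h := P.ord_mul hf (inv_ne_zero hf)
    rw [mul_inv_cancel₀ hf, ord_one] at h
    omega

lemma ord_div {f g : K} (hf : f ≠ 0) (hg : g ≠ 0) : P.ord (f / g) = P.ord f - P.ord g := by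
  rw [div_eq_mul_inv, P.ord_mul hf (inv_ne_zero hg), ord_inv]
  ring

lemma ord_pow {f : K} (hf : f ≠ 0) (n : ℕ) : P.ord (f ^ n) = n * P.ord f := by
  induction n with
  | zero => simp [ord_one]
  | succ n ih =>
    rw [pow_succ, P.ord_mul (pow_ne_zero n hf) hf, ih]
    push_cast
    ring

/-- `f` has order at least `m` at `P`. -/
def Ge (m : ℤ) (f : K) : Prop := f = 0 ∨ m ≤ P.ord f

variable {P}

lemma Ge.zero (m : ℤ) : Ge P m 0 := Or.inl rfl

lemma Ge.mono {m n : ℤ} {f : K} (h : Ge P m f) (hmn : n ≤ m) : Ge P n f :=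
  h.imp id fun h => hmn.trans h

lemma Ge.add {m : ℤ} {f g : K} (hf : Ge P m f) (hg : Ge P m g) : Ge P m (f + g) := by
  rcases eq_or_ne f 0 with h1 | h1
  · rwa [h1, zero_add]
  rcases eq_or_ne g 0 with h2 | h2
  · rwa [h2, add_zero]
  rcases eq_or_ne (f + g) 0 with h3 | h3
  · exact Or.inl h3
  · refine Or.inr (le_trans ?_ (P.ord_add h1 h2 h3))
    exact le_min (hf.resolve_left h1) (hg.resolve_left h2)

lemma Ge.neg {m : ℤ} {f : K} (hf : Ge P m f) : Ge P m (-f) := by
  rcases hf with h | h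
  · exact Or.inl (by rw [h, neg_zero])
  · exact Or.inr (by rwa [ord_neg])

lemma Ge.sub {m : ℤ} {f g : K} (hf : Ge P m f) (hg : Ge P m g) : Ge P m (f - g) := by
  rw [sub_eq_add_neg]
  exact hf.add hg.neg

lemma Ge.mul {m n : ℤ} {f g : K} (hf : Ge P m f) (hg : Ge P n g) : Ge P (m + n) (f * g) := by
  rcases eq_or_ne f 0 with h1 | h1
  · exact Or.inl (by rw [h1, zero_mul])
  rcases eq_or_ne g 0 with h2 | h2
  · exact Or.inl (by rw [h2, mul_zero])
  · refine Or.inr ?_
    rw [P.ord_mul h1 h2]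
    exact add_le_add (hf.resolve_left h1) (hg.resolve_left h2)

lemma Ge.const (c : ℂ) : Ge P 0 (algebraMap ℂ K c) := by
  rcases eq_or_ne c 0 with h | h
  · exact Or.inl (by rw [h, map_zero])
  · exact Or.inr (P.ord_const h).ge

lemma Ge.one : Ge P 0 1 := Or.inr (ord_one P).ge

lemma Ge.pow {f : K} (hf : Ge P 0 f) (n : ℕ) : Ge P 0 (f ^ n) := by
  induction n with
  | zero => rw [pow_zero]; exact Ge.one
  | succ n ih =>
    rw [pow_succ]
    exact ih.mul hf

/-- a function which differs from `g` by a function of higher order has the order of `g` -/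
lemma ord_eq_of_sub {f g : K} {m : ℤ} (hg : g ≠ 0) (hm : P.ord g = m)
    (h : Ge P (m + 1) (f - g)) : f ≠ 0 ∧ P.ord f = m := by
  have hgf : Ge P m f := by
    have := (h.mono (by omega : m ≤ m + 1)).add (Or.inr hm.ge : Ge P m g)
    rwa [sub_add_cancel] at this
  have hf : f ≠ 0 := by
    rintro rfl
    have h1 : Ge P (m + 1) g := by
      have := h.neg
      rwa [zero_sub, neg_neg] at this
    have := h1.resolve_left hg
    omega
  refine ⟨hf, ?_⟩
  by_contra hne
  have h2 : Ge P (m + 1) f := Or.inr (by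
    have := hgf.resolve_left hf
    omega)
  have h3 : Ge P (m + 1) g := by
    have := h2.sub h
    rwa [sub_sub_cancel] at this
  have := h3.resolve_left hg
  omega

/-- a function with a nonzero value at `P` has order zero -/
lemma ord_eq_zero_of_val {f : K} {c : ℂ} (hc : c ≠ 0) (h : Ge P 1 (f - algebraMap ℂ K c)) :
    f ≠ 0 ∧ P.ord f = 0 := by
  refine ord_eq_of_sub (g := algebraMap ℂ K c) ?_ (P.ord_const hc) (by simpa using h)
  rwa [Ne, map_eq_zero]

end place

/-! ### Evaluation of polynomials in two variables -/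

section ev

/-- The value of a polynomial in two variables. The inner variable is the first one. -/
noncomputable def ev {R : Type} [CommRing R] [Algebra ℂ R] (a b : R) : ℂ[X][X] →+* R :=
  eval₂RingHom (aeval a : ℂ[X] →ₐ[ℂ] R).toRingHom b

variable {R : Type} [CommRing R] [Algebra ℂ R] (a b : R)

@[simp] lemma ev_C (p : ℂ[X]) : ev a b (C p) = aeval a p := by
  simp [ev]

@[simp] lemma ev_X : ev a b X = b := by
  simp [ev]

lemma ev_CC (c : ℂ) : ev a b (C (C c)) = algebraMap ℂ R c := by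
  simp

lemma ev_CX : ev a b (C X) = a := by
  simp

lemma ev_complex (a b : ℂ) (p : ℂ[X][X]) : ev a b p = (p.eval (C b)).eval a := by
  induction p using Polynomial.induction_on' with
  | add p q hp hq => rw [map_add, hp, hq, eval_add, eval_add]
  | monomial n c =>
    rw [← C_mul_X_pow_eq_monomial]
    simp [coe_aeval_eq_eval]

/-- Taylor expansion to the first order at a point. -/
lemma exists_decomp (p : ℂ[X][X]) (a b : ℂ) : ∃ g h : ℂ[X][X],
    p = C (C (ev a b p)) + C (X - C a) * g + (X - C (C b)) * h := by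
  obtain ⟨h, hh⟩ := X_sub_C_dvd_sub_C_eval (p := p) (a := C b)
  obtain ⟨g, hg⟩ := X_sub_C_dvd_sub_C_eval (p := p.eval (C b)) (a := a)
  refine ⟨C g, h, ?_⟩
  rw [ev_complex, ← hh, ← C_mul, ← hg, C_sub]
  ring

variable {K : Type} [Field K] [Algebra ℂ K] {P : Place K} {a b : K}

lemma ge_ev (ha : Ge P 0 a) (hb : Ge P 0 b) (p : ℂ[X][X]) : Ge P 0 (ev a b p) := by
  have hC : ∀ q : ℂ[X], Ge P 0 (aeval a q) := by
    intro q
    induction q using Polynomial.induction_on' with
    | add p q hp hq => rw [map_add]; exact hp.add hq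
    | monomial n c =>
      rw [← C_mul_X_pow_eq_monomial, map_mul, map_pow, aeval_X, aeval_C]
      exact (Ge.const c).mul (ha.pow n)
  induction p using Polynomial.induction_on' with
  | add p q hp hq => rw [map_add]; exact hp.add hq
  | monomial n c =>
    rw [← C_mul_X_pow_eq_monomial, map_mul, map_pow, ev_X, ev_C]
    exact (hC c).mul (hb.pow n)

/-- the place `P` is centred at the point `(a₀, b₀)` -/
def Cen (P : Place K) (a b : K) (a₀ b₀ : ℂ) : Prop :=
  Ge P 1 (a - algebraMap ℂ K a₀) ∧ Ge P 1 (b - algebraMap ℂ K b₀)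

lemma Cen.reg {a₀ b₀ : ℂ} (h : Cen P a b a₀ b₀) : Ge P 0 a ∧ Ge P 0 b := by
  constructor
  · have := (h.1.mono (by norm_num : (0 : ℤ) ≤ 1)).add (Ge.const a₀)
    rwa [sub_add_cancel] at this
  · have := (h.2.mono (by norm_num : (0 : ℤ) ≤ 1)).add (Ge.const b₀)
    rwa [sub_add_cancel] at this

lemma Cen.val {a₀ b₀ : ℂ} (h : Cen P a b a₀ b₀) (p : ℂ[X][X]) :
    Ge P 1 (ev a b p - algebraMap ℂ K (ev a₀ b₀ p)) := by
  obtain ⟨u, v, huv⟩ := exists_decomp p a₀ b₀
  obtain ⟨c, hc⟩ : ∃ c : ℂ, c = ev a₀ b₀ p := ⟨_, rfl⟩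
  rw [← hc] at huv ⊢
  have e : ev a b p - algebraMap ℂ K c =
      (a - algebraMap ℂ K a₀) * ev a b u + (b - algebraMap ℂ K b₀) * ev a b v := by
    rw [huv]
    simp only [map_add, map_mul, map_sub, ev_C, ev_X, aeval_X, aeval_C]
    ring
  rw [e]
  have h1 := h.1.mul (ge_ev h.reg.1 h.reg.2 u)
  have h2 := h.2.mul (ge_ev h.reg.1 h.reg.2 v)
  rw [add_zero] at h1 h2
  exact h1.add h2

lemma Cen.ord_ev {a₀ b₀ : ℂ} (h : Cen P a b a₀ b₀) {p : ℂ[X][X]} (hp : ev a₀ b₀ p ≠ 0) :
    ev a b p ≠ 0 ∧ P.ord (ev a b p) = 0 :=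
  ord_eq_zero_of_val hp (h.val p)

end ev

end Pool.Agent.Y188.CN
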