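import Pool.Agent.TH144.CN.Surf

/-!
The surface is smooth.
-/

set_option autoImplicit false

namespace Pool.Agent.Y188.CN

open Pool.Agent.TH144.CN MvPolynomial

section members

/-- the members of the pencil with parameter of absolute value 2 have no singular point -/
lemma no_sing {γ c : ℂ} (hγ : 1 ≤ ‖γ‖) (hc : ‖c‖ = 2) {U V W : ℂ}
    (h1 : U * (15 * U ^ 14 * W + V ^ 15 + 16 * c * U ^ 15) = 0)
    (h2 : V ^ 15 * (16 * (1 + c) * V + 15 * U) = 0)
    (h3 : W * (U ^ 15 + 16 * c * γ * W ^ 15) = 0) : U = 0 ∧ V = 0 ∧ W = 0 := by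
  have hγ0 : γ ≠ 0 := by
    rintro rfl
    rw [norm_zero] at hγ
    norm_num at hγ
  have hc0 : c ≠ 0 := by
    rintro rfl
    rw [norm_zero] at hc
    norm_num at hc
  have hc1 : 1 ≤ ‖1 + c‖ := by
    have := norm_sub_norm_le (1 + c) 1
    rw [add_sub_cancel_left, norm_one] at this
    have h4 := norm_add_le (1 + c) (-1)
    rw [norm_neg, norm_one] at h4
    have h5 : 1 + c + -1 = c := by ring
    rw [h5, hc] at h4
    linarith
  have hc1' : (1 + c) ≠ 0 := by
    intro h
    rw [h, norm_zero] at hc1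
    norm_num at hc1
  by_cases hU : U = 0
  · subst hU
    have hV : V = 0 := by
      have h4 : V ^ 15 * (16 * (1 + c) * V) = 0 := by linear_combination h2
      by_contra hV
      rcases mul_eq_zero.1 h4 with h5 | h5
      · exact pow_ne_zero _ hV h5
      · exact mul_ne_zero (mul_ne_zero (by norm_num) hc1') hV h5
    have hW : W = 0 := by
      by_contra hW
      have h4 := (mul_eq_zero.1 h3).resolve_left hW
      have h5 : 16 * c * γ * W ^ 15 = 0 := by linear_combination h4
      exact mul_ne_zero (mul_ne_zero (mul_ne_zero (by norm_num) hc0) hγ0) (pow_ne_zero _ hW) h5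
    exact ⟨rfl, hV, hW⟩
  · exfalso
    have hu : 0 < ‖U‖ := norm_pos_iff.2 hU
    have hvu : ‖V‖ ≤ ‖U‖ := by
      by_cases hV : V = 0
      · rw [hV, norm_zero]
        exact hu.le
      · have h4 := (mul_eq_zero.1 h2).resolve_left (pow_ne_zero _ hV)
        have h5 : 16 * (1 + c) * V = -(15 * U) := by linear_combination h4
        have h6 := congrArg norm h5
        rw [norm_neg, norm_mul, norm_mul, norm_mul] at h6
        have h7 : ‖(16 : ℂ)‖ = 16 := by simp
        have h8 : ‖(15 : ℂ)‖ = 15 := by simp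
        rw [h7, h8] at h6
        have h9 := mul_le_mul_of_nonneg_right hc1 (norm_nonneg V)
        nlinarith [norm_nonneg V]
    have h4 := (mul_eq_zero.1 h1).resolve_left hU
    have h5 : 16 * c * U ^ 15 = -(15 * U ^ 14 * W) + -(V ^ 15) := by linear_combination h4
    have h6 : ‖16 * c * U ^ 15‖ ≤ ‖15 * U ^ 14 * W‖ + ‖V ^ 15‖ := by
      rw [h5]
      refine (norm_add_le _ _).trans ?_
      rw [norm_neg, norm_neg]
    rw [norm_mul, norm_mul, norm_mul, norm_mul, norm_pow, norm_pow, norm_pow, hc] at h6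
    have h7 : ‖(16 : ℂ)‖ = 16 := by simp
    have h8 : ‖(15 : ℂ)‖ = 15 := by simp
    rw [h7, h8] at h6
    have h9 : ‖V‖ ^ 15 ≤ ‖U‖ ^ 15 := pow_le_pow_left₀ (norm_nonneg _) hvu 15
    have h10 : 31 * ‖U‖ ≤ 15 * ‖W‖ := by
      have h11 : ‖U‖ ^ 14 * (31 * ‖U‖) ≤ ‖U‖ ^ 14 * (15 * ‖W‖) := by
        have : ‖U‖ ^ 14 * (31 * ‖U‖) = 31 * ‖U‖ ^ 15 := by ring
        rw [this]
        linarith
      exact le_of_mul_le_mul_left h11 (pow_pos hu 14)
    have hWU : ‖U‖ < ‖W‖ := by linarith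
    have hW : W ≠ 0 := by
      rintro rfl
      rw [norm_zero] at hWU
      linarith
    have h11 := (mul_eq_zero.1 h3).resolve_left hW
    have h12 : U ^ 15 = -(16 * c * γ * W ^ 15) := by linear_combination h11
    have h13 := congrArg norm h12
    rw [norm_neg, norm_mul, norm_mul, norm_mul, norm_pow, norm_pow, h7, hc] at h13
    have h14 : ‖U‖ ^ 15 < ‖W‖ ^ 15 := pow_lt_pow_left₀ hWU (norm_nonneg _) (by norm_num)
    have h15 : ‖W‖ ^ 15 ≤ ‖γ‖ * ‖W‖ ^ 15 :=
      le_mul_of_one_le_left (pow_nonneg (norm_nonneg _) _) hγ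
    have h16 : 0 ≤ ‖W‖ ^ 15 := pow_nonneg (norm_nonneg _) _
    nlinarith

/-- at the base points of the pencil the two generators are transversal -/
lemma transversal {γ : ℂ} (hγ : γ ≠ 0)
    (hγ2 : ∀ v : ℂ, 15 * v ^ 17 + 14 * v ^ 16 + 16 * v + 15 = 0 →
      γ * (v ^ 15 * (1 + v)) ^ 16 ≠ -(1 + v ^ 16)) {p q U V W : ℂ} (hpq : p ≠ 0 ∨ q ≠ 0)
    (hA : U ^ 15 * W + V ^ 16 + U * V ^ 15 = 0) (hG : U ^ 16 + V ^ 16 + γ * W ^ 16 = 0)
    (h1 : p * (15 * U ^ 15 * W + U * V ^ 15) + q * (16 * U ^ 16) = 0)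
    (h2 : p * (16 * V ^ 16 + 15 * U * V ^ 15) + q * (16 * V ^ 16) = 0) :
    U = 0 ∧ V = 0 ∧ W = 0 := by
  by_cases hU : U = 0
  · subst hU
    have hV : V = 0 := by
      have : V ^ 16 = 0 := by linear_combination hA
      exact pow_eq_zero_iff (by norm_num) |>.1 this
    have hW : W = 0 := by
      have h3 : γ * W ^ 16 = 0 := by
        rw [hV] at hG
        linear_combination hG
      exact pow_eq_zero_iff (by norm_num) |>.1 ((mul_eq_zero.1 h3).resolve_left hγ)
    exact ⟨rfl, hV, hW⟩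
  exfalso
  obtain ⟨v, hv⟩ : ∃ v, v = V / U := ⟨_, rfl⟩
  obtain ⟨o, ho⟩ : ∃ o, o = W / U := ⟨_, rfl⟩
  have hV : V = v * U := by rw [hv, div_mul_cancel₀ _ hU]
  have hW : W = o * U := by rw [ho, div_mul_cancel₀ _ hU]
  have hU16 : U ^ 16 ≠ 0 := pow_ne_zero _ hU
  have eA : o = -(v ^ 15 * (1 + v)) := by
    have : U ^ 16 * (o + v ^ 16 + v ^ 15) = 0 := by
      rw [hV, hW] at hA
      linear_combination hA
    linear_combination (mul_eq_zero.1 this).resolve_left hU16
  have eG : 1 + v ^ 16 + γ * o ^ 16 = 0 := by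
    have : U ^ 16 * (1 + v ^ 16 + γ * o ^ 16) = 0 := by
      rw [hV, hW] at hG
      linear_combination hG
    exact (mul_eq_zero.1 this).resolve_left hU16
  have e1 : p * (15 * o + v ^ 15) + q * 16 = 0 := by
    have : U ^ 16 * (p * (15 * o + v ^ 15) + q * 16) = 0 := by
      rw [hV, hW] at h1
      linear_combination h1
    exact (mul_eq_zero.1 this).resolve_left hU16
  have e2 : p * (16 * v ^ 16 + 15 * v ^ 15) + q * (16 * v ^ 16) = 0 := by
    have : U ^ 16 * (p * (16 * v ^ 16 + 15 * v ^ 15) + q * (16 * v ^ 16)) = 0 := by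
      rw [hV] at h2
      linear_combination h2
    exact (mul_eq_zero.1 this).resolve_left hU16
  have hp : p ≠ 0 := by
    rintro rfl
    have : q = 0 := by linear_combination e1 / 16
    exact hpq.elim (fun h => h rfl) (fun h => h this)
  have hv0 : v ≠ 0 := by
    rintro rfl
    rw [eA] at eG
    norm_num at eG
  have e3 : v ^ 15 * p * (15 * v ^ 17 + 14 * v ^ 16 + 16 * v + 15) = 0 := by
    rw [eA] at e1
    linear_combination e2 - v ^ 16 * e1
  have e4 := (mul_eq_zero.1 e3).resolve_left (mul_ne_zero (pow_ne_zero _ hv0) hp)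
  refine hγ2 v e4 ?_
  rw [eA] at eG
  linear_combination eG

end members

/-- a suitable constant -/
lemma exists_gamma : ∃ γ : ℂ, 1 ≤ ‖γ‖ ∧ ∀ v : ℂ, 15 * v ^ 17 + 14 * v ^ 16 + 16 * v + 15 = 0 →
      γ * (v ^ 15 * (1 + v)) ^ 16 ≠ -(1 + v ^ 16) := by
  open Polynomial in
  have hp : (Polynomial.C 15 * Polynomial.X ^ 17 + Polynomial.C 14 * Polynomial.X ^ 16 +
      Polynomial.C 16 * Polynomial.X + Polynomial.C 15 : Polynomial ℂ) ≠ 0 := by
    intro h
    have := congrArg (fun p => Polynomial.eval (0 : ℂ) p) h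
    simp at this
  have hfin := Polynomial.finite_setOfPred_isRoot hp
  have hinf : (Set.range fun n : ℕ => ((n : ℂ) + 1)).Infinite := by
    refine Set.infinite_range_of_injective fun m n h => ?_
    have : (m : ℂ) = n := by linear_combination h
    exact_mod_cast this
  obtain ⟨γ, ⟨n, rfl⟩, hγ⟩ := hinf.exists_notMem_finite
    (hfin.image fun v : ℂ => -(1 + v ^ 16) / (v ^ 15 * (1 + v)) ^ 16)
  refine ⟨(n : ℂ) + 1, ?_, ?_⟩
  · have h1 : ((n : ℂ) + 1) = ((n + 1 : ℕ) : ℂ) := by push_cast; ring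
    rw [h1, Complex.norm_natCast]
    push_cast
    have := Nat.cast_nonneg (α := ℝ) n
    linarith
  · intro v hv he
    have hv0 : v ≠ 0 := by
      rintro rfl
      norm_num at hv
    have hv1 : 1 + v ≠ 0 := by
      intro h
      have : v = -1 := by linear_combination h
      subst this
      norm_num at hv
    refine hγ ⟨v, ?_, ?_⟩
    · change Polynomial.IsRoot _ v
      rw [Polynomial.IsRoot.def]
      simp only [Polynomial.eval_add, Polynomial.eval_mul, Polynomial.eval_pow,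
        Polynomial.eval_C, Polynomial.eval_X]
      exact hv
    · change -(1 + v ^ 16) / (v ^ 15 * (1 + v)) ^ 16 = (n : ℂ) + 1
      rw [div_eq_iff (pow_ne_zero _ (mul_ne_zero (pow_ne_zero _ hv0) hv1))]
      exact he.symm

/-! ### The gradients -/

lemma grad_E (b x : Fin 3 → ℂ) : (fun i => eval (Sum.elim b x) (pderiv i Ep)) =
    Sum.elim (fun i => 4 * b i ^ 3) fun _ => 0 := by
  funext i
  rcases i with i | i
  · fin_cases i <;> simp [Ep, B, pderiv_X, Derivation.leibniz_pow]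
  · fin_cases i <;> simp [Ep, B, pderiv_X, Derivation.leibniz_pow]

lemma grad_F (γ : ℂ) (b x : Fin 3 → ℂ) : (fun i => eval (Sum.elim b x) (pderiv i (Fp γ))) =
    Sum.elim ![Af x, 2 * Gf γ x, 0]
      ![b 0 * (240 * x 0 ^ 239 * x 2 ^ 16 + 16 * x 0 ^ 15 * x 1 ^ 240) +
          2 * b 1 * (256 * x 0 ^ 255),
        b 0 * (256 * x 1 ^ 255 + 240 * x 0 ^ 16 * x 1 ^ 239) + 2 * b 1 * (256 * x 1 ^ 255),
        b 0 * (16 * x 0 ^ 240 * x 2 ^ 15) + 2 * b 1 * (256 * γ * x 2 ^ 255)] := by
  funext i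
  rcases i with i | i
  · fin_cases i
    · simp [Fp, Ap, TH144.CN.Gp, B, Y, pderiv_X, Derivation.leibniz_pow, Af]
    · simp [Fp, Ap, TH144.CN.Gp, B, Y, pderiv_X, Derivation.leibniz_pow, Gf]
      ring
    · simp [Fp, Ap, TH144.CN.Gp, B, Y, pderiv_X, Derivation.leibniz_pow]
  · fin_cases i
    · simp [Fp, Ap, TH144.CN.Gp, B, Y, pderiv_X, Derivation.leibniz_pow]
      left
      ring
    · simp [Fp, Ap, TH144.CN.Gp, B, Y, pderiv_X, Derivation.leibniz_pow]
      left
      ring
    · simp [Fp, Ap, TH144.CN.Gp, B, Y, pderiv_X, Derivation.leibniz_pow]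
      ring

/-- The surface is smooth. -/
theorem smooth {γ : ℂ} (hγ : 1 ≤ ‖γ‖)
    (hγ2 : ∀ v : ℂ, 15 * v ^ 17 + 14 * v ^ 16 + 16 * v + 15 = 0 →
      γ * (v ^ 15 * (1 + v)) ^ 16 ≠ -(1 + v ^ 16)) : (Xs γ).SmoothSurface := by
  have hγ0 : γ ≠ 0 := by
    rintro rfl
    rw [norm_zero] at hγ
    norm_num at hγ
  refine ⟨Ep, Fp γ, rfl, ?_⟩
  intro b x hbx
  obtain ⟨hb, hx, hE, hF⟩ := mem_Xs.1 hbx
  rw [grad_E, grad_F, LinearIndependent.pair_iff]
  intro s t hst
  have g0 : s * (4 * b 0 ^ 3) + t * Af x = 0 := by simpa using congrFun hst (Sum.inl 0)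
  have g1 : s * (4 * b 1 ^ 3) + t * (2 * Gf γ x) = 0 := by simpa using congrFun hst (Sum.inl 1)
  have g2 : s * (4 * b 2 ^ 3) = 0 := by
    have := congrFun hst (Sum.inl 2)
    simpa using this
  have k0 : t * (b 0 * (240 * x 0 ^ 239 * x 2 ^ 16 + 16 * x 0 ^ 15 * x 1 ^ 240) +
          2 * b 1 * (256 * x 0 ^ 255)) = 0 := by
    have := congrFun hst (Sum.inr 0)
    rw [Pi.add_apply, Pi.smul_apply, Pi.smul_apply] at this
    simpa only [Sum.elim_inr, smul_eq_mul, mul_zero, zero_add, Matrix.cons_val_zero,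
      Pi.zero_apply] using this
  have k1 : t * (b 0 * (256 * x 1 ^ 255 + 240 * x 0 ^ 16 * x 1 ^ 239) +
      2 * b 1 * (256 * x 1 ^ 255)) = 0 := by
    have := congrFun hst (Sum.inr 1)
    rw [Pi.add_apply, Pi.smul_apply, Pi.smul_apply] at this
    simpa only [Sum.elim_inr, smul_eq_mul, mul_zero, zero_add, Matrix.cons_val_one,
      Matrix.cons_val_zero, Pi.zero_apply] using this
  have k2 : t * (b 0 * (16 * x 0 ^ 240 * x 2 ^ 15) + 2 * b 1 * (256 * γ * x 2 ^ 255)) = 0 := by
    have := congrFun hst (Sum.inr 2)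
    rw [Pi.add_apply, Pi.smul_apply, Pi.smul_apply] at this
    simpa only [Sum.elim_inr, smul_eq_mul, mul_zero, zero_add, Matrix.cons_val_two,
      Matrix.tail_cons, Matrix.head_cons, Pi.zero_apply] using this
  by_cases ht : t = 0
  · refine ⟨?_, ht⟩
    by_contra hs
    rw [ht, zero_mul, add_zero] at g0 g1
    have h4 : (4 : ℂ) ≠ 0 := by norm_num
    have z : ∀ i, s * (4 * b i ^ 3) = 0 → b i = 0 := by
      intro i hi
      have := (mul_eq_zero.1 ((mul_eq_zero.1 hi).resolve_left hs)).resolve_left h4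
      exact pow_eq_zero_iff (by norm_num) |>.1 this
    apply hb
    funext i
    fin_cases i
    · exact z 0 g0
    · exact z 1 g1
    · exact z 2 g2
  exfalso
  replace k0 := (mul_eq_zero.1 k0).resolve_left ht
  replace k1 := (mul_eq_zero.1 k1).resolve_left ht
  replace k2 := (mul_eq_zero.1 k2).resolve_left ht
  have hb01 : b 0 ≠ 0 ∨ 2 * b 1 ≠ 0 := by
    by_contra hcon
    push Not at hcon
    obtain ⟨h0, h1⟩ := hcon
    have h1' : b 1 = 0 := by simpa using h1
    rw [h0, h1'] at hE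
    have h3 : b 2 = 0 := by simpa using hE
    apply hb
    funext i
    fin_cases i
    · exact h0
    · exact h1'
    · exact h3
  have hcase : x 0 ^ 16 = 0 ∧ x 1 ^ 16 = 0 ∧ x 2 ^ 16 = 0 := by
    by_cases hs : s = 0
    · -- base points
      rw [hs, zero_mul, zero_add] at g0 g1
      have hA := (mul_eq_zero.1 g0).resolve_left ht
      have hG : Gf γ x = 0 := by
        have := (mul_eq_zero.1 g1).resolve_left ht
        linear_combination this / 2
      unfold Af at hA
      unfold Gf at hG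
      refine transversal hγ0 hγ2 (p := b 0) (q := 2 * b 1) hb01 ?_ ?_ ?_ ?_
      · linear_combination hA
      · linear_combination hG
      · linear_combination x 0 * k0 / 16
      · linear_combination x 1 * k1 / 16
    · have hb2 : b 2 = 0 := by
        have := (mul_eq_zero.1 ((mul_eq_zero.1 g2).resolve_left hs)).resolve_left
          (by norm_num : (4 : ℂ) ≠ 0)
        exact pow_eq_zero_iff (by norm_num) |>.1 this
      have hb0 : b 0 ≠ 0 := by
        intro h0
        rw [h0, hb2] at hE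
        have h1 : b 1 = 0 := by simpa using hE
        exact hb01.elim (fun h => h h0) (fun h => h (by rw [h1, mul_zero]))
      obtain ⟨c, hc⟩ : ∃ c, c = 2 * b 1 / b 0 := ⟨_, rfl⟩
      have hcb : 2 * b 1 = c * b 0 := by rw [hc, div_mul_cancel₀ _ hb0]
      have hcn : ‖c‖ = 2 := by
        have h1 : c ^ 4 = -16 := by
          have h2 : b 0 ^ 4 * (c ^ 4 + 16) = 0 := by
            rw [hb2] at hE
            have h3 : (2 * b 1) ^ 4 = (c * b 0) ^ 4 := by rw [hcb]
            linear_combination 16 * hE - h3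
          linear_combination (mul_eq_zero.1 h2).resolve_left (pow_ne_zero _ hb0)
        have h2 := congrArg norm h1
        rw [norm_pow, norm_neg] at h2
        have h3 : ‖(16 : ℂ)‖ = 2 ^ 4 := by simp; norm_num
        rw [h3] at h2
        exact (pow_left_inj₀ (norm_nonneg _) (by norm_num) (by norm_num)).1 h2
      have l0 : 240 * x 0 ^ 239 * x 2 ^ 16 + 16 * x 0 ^ 15 * x 1 ^ 240 +
          c * (256 * x 0 ^ 255) = 0 := by
        have h1 : b 0 * (240 * x 0 ^ 239 * x 2 ^ 16 + 16 * x 0 ^ 15 * x 1 ^ 240 +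
          c * (256 * x 0 ^ 255)) = 0 := by
          rw [hcb] at k0
          linear_combination k0
        exact (mul_eq_zero.1 h1).resolve_left hb0
      have l1 : 256 * x 1 ^ 255 + 240 * x 0 ^ 16 * x 1 ^ 239 + c * (256 * x 1 ^ 255) = 0 := by
        have h1 : b 0 * (256 * x 1 ^ 255 + 240 * x 0 ^ 16 * x 1 ^ 239 +
            c * (256 * x 1 ^ 255)) = 0 := by
          rw [hcb] at k1
          linear_combination k1
        exact (mul_eq_zero.1 h1).resolve_left hb0
      have l2 : 16 * x 0 ^ 240 * x 2 ^ 15 + c * (256 * γ * x 2 ^ 255) = 0 := by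
        have h1 : b 0 * (16 * x 0 ^ 240 * x 2 ^ 15 + c * (256 * γ * x 2 ^ 255)) = 0 := by
          rw [hcb] at k2
          linear_combination k2
        exact (mul_eq_zero.1 h1).resolve_left hb0
      refine no_sing hγ hcn ?_ ?_ ?_
      · linear_combination x 0 * l0 / 16
      · linear_combination x 1 * l1 / 16
      · linear_combination x 2 * l2 / 16
  obtain ⟨h0, h1, h2⟩ := hcase
  apply hx
  funext i
  fin_cases i
  · exact pow_eq_zero_iff (by norm_num) |>.1 h0
  · exact pow_eq_zero_iff (by norm_num) |>.1 h1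
  · exact pow_eq_zero_iff (by norm_num) |>.1 h2

end Pool.Agent.Y188.CN
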