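import Pool.Agent.Y188.CN.Glob
import Pool.Agent.TH144.CN.Surf

/-!
The curve: its function field, and its embedding in the surface.
-/

set_option autoImplicit false

namespace Pool.Agent.Y188.CN

open Pool.Agent.TH144.CN

section hom

variable {L : Type} [Field L] [Algebra ℂ L]

/-- bihomogeneous polynomials and scaling -/
theorem aeval_scale {G : BiPoly} {d e : ℕ} (hG : BiHom G d e) (lam mu : L) (b x : Fin 3 → L) :
    MvPolynomial.aeval (Sum.elim (fun i => lam * b i) fun i => mu * x i) G =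
      lam ^ d * mu ^ e * MvPolynomial.aeval (Sum.elim b x) G := by
  rw [MvPolynomial.aeval_def, MvPolynomial.aeval_def, MvPolynomial.eval₂_eq',
    MvPolynomial.eval₂_eq', Finset.mul_sum]
  refine Finset.sum_congr rfl fun m hm => ?_
  have h1 := hG (MvPolynomial.mem_support_iff.1 hm)
  rw [Finsupp.weight_apply, Finsupp.sum_fintype _ _ (by simp), Fintype.sum_sum_type] at h1
  simp only [Sum.elim_inl, Sum.elim_inr, Fin.sum_univ_three, Prod.smul_mk, smul_eq_mul, mul_one,
    mul_zero, Prod.mk_add_mk, Prod.mk.injEq] at h1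
  obtain ⟨hd, he⟩ := h1
  rw [Fintype.prod_sum_type, Fintype.prod_sum_type]
  simp only [Sum.elim_inl, Sum.elim_inr, Fin.prod_univ_three]
  rw [← hd, ← he]
  simp only [mul_pow, pow_add]
  ring

end hom

open Polynomial

/-- the polynomial in two variables obtained by substitution -/
noncomputable def sub2 (b x : Fin 3 → ℂ[X][X]) (G : BiPoly) : ℂ[X][X] :=
  MvPolynomial.aeval (Sum.elim b x) G

lemma ev_sub2 {R : Type} [CommRing R] [Algebra ℂ R] (u v : R) (b x : Fin 3 → ℂ[X][X])
    (G : BiPoly) : ev u v (sub2 b x G) =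
      MvPolynomial.aeval (Sum.elim (fun i => ev u v (b i)) fun i => ev u v (x i)) G := by
  rw [sub2, MvPolynomial.map_aeval, MvPolynomial.aeval_def]
  have h1 : (ev u v).comp (algebraMap ℂ ℂ[X][X]) = algebraMap ℂ R := by
    ext c
    simp [Polynomial.algebraMap_apply]
  rw [h1]
  change MvPolynomial.eval₂ _ _ _ = _
  congr 1
  funext i
  rcases i with i | i <;> rfl

/-- the curve -/
noncomputable def Zs (ζ : ℂ) : ClosedSet where
  eqs := {B 1, B 2 + MvPolynomial.C (-ζ) * B 0, Ap}
  hom := by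
    rintro G (rfl | rfl | rfl)
    · exact ⟨_, _, B_hom 1⟩
    · refine ⟨1, 0, (B_hom 2).add ?_⟩
      have := (C_hom (-ζ)).mul (B_hom 0)
      simpa using this
    · exact ⟨_, _, Ap_hom⟩

lemma mem_Zs {L : Type} [Field L] [Algebra ℂ L] {ζ : ℂ} {b x : Fin 3 → L} :
    (Zs ζ).Mem b x ↔ b ≠ 0 ∧ x ≠ 0 ∧ b 1 = 0 ∧ b 2 = algebraMap ℂ L ζ * b 0 ∧
      x 0 ^ 240 * x 2 ^ 16 + x 1 ^ 256 + x 0 ^ 16 * x 1 ^ 240 = 0 := by
  have h1 : MvPolynomial.aeval (Sum.elim b x) (B 1) = b 1 := by simp [B]
  have h2 : MvPolynomial.aeval (Sum.elim b x) (B 2 + MvPolynomial.C (-ζ) * B 0) =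
      b 2 - algebraMap ℂ L ζ * b 0 := by
    simp [B, sub_eq_add_neg]
  unfold ClosedSet.Mem Zs
  simp only [Set.mem_insert_iff, Set.mem_singleton_iff, forall_eq_or_imp, forall_eq, aeval_Ap,
    h1, h2, sub_eq_zero]

/-- the curve lies on the surface -/
lemma Zs_sub {ζ γ : ℂ} (hζ : ζ ^ 4 = -1) : (Zs ζ).points ⊆ (Xs γ).points := by
  rintro p ⟨b, x, hb, hx, hm, rfl⟩
  refine ⟨b, x, hb, hx, ?_, rfl⟩
  obtain ⟨-, -, h1, h2, h3⟩ := mem_Zs.1 hm
  refine mem_Xs.2 ⟨hb, hx, ?_, ?_⟩
  · rw [h1, h2, Algebra.algebraMap_self, RingHom.id_apply]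
    linear_combination b 0 ^ 4 * hζ
  · rw [h1, Af, h3]
    ring

section ff

variable {K : Type} [Field K] [Algebra ℂ K] {s w : K} {D : Derivation ℂ K K} {ζ : ℂ}

lemma bvec_ne : (bvec ζ : Fin 3 → K) ≠ 0 := by
  intro h
  have := congrFun h 0
  exact one_ne_zero this

lemma xvec_ne {q r : K} : xvec q r ≠ 0 := by
  intro h
  have := congrFun h 0
  exact one_ne_zero this

lemma mem_gen {L : Type} [Field L] [Algebra ℂ L] {q r : L} (h : q ^ 16 + r ^ 16 = -1) :
    (Zs ζ).Mem (bvec ζ) (xvec q r) := by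
  refine mem_Zs.2 ⟨bvec_ne, xvec_ne, rfl, ?_, ?_⟩
  · change algebraMap ℂ L ζ = algebraMap ℂ L ζ * 1
    rw [mul_one]
  · change (1 : L) ^ 240 * (q ^ 15 * r) ^ 16 + q ^ 256 + 1 ^ 16 * q ^ 240 = 0
    linear_combination q ^ 240 * h

/-- the polynomial attached to `G` and the coordinates `q`, `r` -/
noncomputable def pol1 (ζ : ℂ) (G : BiPoly) : ℂ[X][X] :=
  sub2 ![1, 0, C (C ζ)] ![1, C X, C X ^ 15 * X] G

/-- the polynomial attached to `G` and the coordinates `s`, `w` -/
noncomputable def pol2 (ζ : ℂ) (G : BiPoly) : ℂ[X][X] :=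
  sub2 ![1, 0, C (C ζ)] ![C X ^ 16, C X ^ 15, X] G

lemma ev_pol1 {R : Type} [Field R] [Algebra ℂ R] (u v : R) (G : BiPoly) :
    ev u v (pol1 ζ G) = MvPolynomial.aeval (Sum.elim (bvec ζ) (xvec u v)) G := by
  rw [pol1, ev_sub2]
  congr 2
  funext i
  rcases i with i | i
  · fin_cases i <;> simp [bvec]
  · fin_cases i <;> simp [xvec]

lemma ev_pol2 {R : Type} [Field R] [Algebra ℂ R] (u v : R) (G : BiPoly) :
    ev u v (pol2 ζ G) = MvPolynomial.aeval (Sum.elim (bvec ζ) ![u ^ 16, u ^ 15, v]) G := by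
  rw [pol2, ev_sub2]
  congr 2
  funext i
  rcases i with i | i
  · fin_cases i <;> simp [bvec]
  · fin_cases i <;> simp

/-- The function field of the curve. -/
theorem functionField (h : Mdl s w D) : (Zs ζ).FunctionField K (bvec ζ)
    (xvec s⁻¹ (w * s⁻¹)) where
  mem := mem_gen h.pt'.eq
  van := by
    intro G d e hG
    rw [← ev_pol1, h.pt'.ev_eq_zero_iff]
    constructor
    · intro h0 p x hpx
      obtain ⟨hp, hx, hp1, hp2, hA⟩ := mem_Zs.1 hpx
      rw [Algebra.algebraMap_self, RingHom.id_apply] at hp2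
      have hpe : p = fun i => p 0 * (bvec ζ : Fin 3 → ℂ) i := by
        funext i
        fin_cases i
        · change p 0 = p 0 * 1
          rw [mul_one]
        · change p 1 = p 0 * 0
          rw [hp1, mul_zero]
        · change p 2 = p 0 * ζ
          rw [hp2, mul_comm]
      by_cases hx0 : x 0 = 0
      · -- the point at infinity
        have hx1 : x 1 = 0 := by
          rw [hx0] at hA
          have : x 1 ^ 256 = 0 := by linear_combination hA
          exact pow_eq_zero_iff (by norm_num) |>.1 this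
        obtain ⟨ω, hω⟩ := IsAlgClosed.exists_pow_nat_eq (-1 : ℂ) (n := 16) (by norm_num)
        have hω0 := ne_zero_of_root hω
        have h1 : ev s w (pol2 ζ G) = 0 := by
          rw [ev_pol2]
          have h2 := (h.pt'.ev_eq_zero_iff (pol1 ζ G)).2 h0
          rw [ev_pol1] at h2
          have h3 := aeval_scale hG (1 : K) (s ^ 16) (bvec ζ) (xvec s⁻¹ (w * s⁻¹))
          rw [h2, mul_zero] at h3
          rw [← h3]
          congr 2
          funext i
          have hs := h.s_ne
          rcases i with i | i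
          · simp
          · fin_cases i
            · simp [xvec]
            · change s ^ 15 = s ^ 16 * s⁻¹
              field_simp
            · change w = s ^ 16 * (s⁻¹ ^ 15 * (w * s⁻¹))
              field_simp
        have h4 := (h.pt.ev_eq_zero_iff (pol2 ζ G)).1 h1 0 ω (by
          rw [zero_pow (by norm_num), zero_add, hω])
        rw [ev_pol2] at h4
        have h5 := aeval_scale hG (p 0) (x 2 / ω) (bvec ζ) ![(0 : ℂ) ^ 16, 0 ^ 15, ω]
        rw [h4, mul_zero] at h5
        rw [← h5]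
        congr 2
        funext i
        rcases i with i | i
        · exact congrFun hpe i
        · fin_cases i
          · change x 0 = x 2 / ω * 0 ^ 16
            rw [hx0]
            simp
          · change x 1 = x 2 / ω * 0 ^ 15
            rw [hx1]
            simp
          · change x 2 = x 2 / ω * ω
            rw [div_mul_cancel₀ _ hω0]
      · -- the affine points
        obtain ⟨r₀, hr1, hr2⟩ : ∃ r₀ : ℂ, (x 1 / x 0) ^ 16 + r₀ ^ 16 = -1 ∧
            x 2 = x 0 * ((x 1 / x 0) ^ 15 * r₀) := by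
          by_cases hx1 : x 1 = 0
          · obtain ⟨ω, hω⟩ := IsAlgClosed.exists_pow_nat_eq (-1 : ℂ) (n := 16) (by norm_num)
            refine ⟨ω, by rw [hx1, zero_div, zero_pow (by norm_num), zero_add, hω], ?_⟩
            have h6 : x 2 ^ 16 = 0 := by
              have h7 : x 0 ^ 240 * x 2 ^ 16 = 0 := by
                rw [hx1] at hA
                linear_combination hA
              exact (mul_eq_zero.1 h7).resolve_left (pow_ne_zero _ hx0)
            rw [pow_eq_zero_iff (by norm_num) |>.1 h6, hx1]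
            simp
          · refine ⟨(x 2 / x 0) / (x 1 / x 0) ^ 15, ?_, ?_⟩
            · field_simp
              linear_combination hA
            · field_simp
        have h4 := h0 (x 1 / x 0) r₀ hr1
        rw [ev_pol1] at h4
        have h5 := aeval_scale hG (p 0) (x 0) (bvec ζ) (xvec (x 1 / x 0) r₀)
        rw [h4, mul_zero] at h5
        rw [← h5]
        congr 2
        funext i
        rcases i with i | i
        · exact congrFun hpe i
        · fin_cases i
          · change x 0 = x 0 * 1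
            rw [mul_one]
          · change x 1 = x 0 * (x 1 / x 0)
            rw [mul_div_cancel₀ _ hx0]
          · exact hr2
    · intro h0 a₀ b₀ hab
      rw [ev_pol1]
      exact h0 _ _ (mem_gen hab)
  gen := by
    obtain ⟨S, hS⟩ : ∃ S : IntermediateField ℂ K, S = IntermediateField.adjoin ℂ
      ({f | ∃ i j, (bvec ζ : Fin 3 → K) j ≠ 0 ∧ f = (bvec ζ : Fin 3 → K) i / bvec ζ j} ∪
        {f | ∃ i j, xvec s⁻¹ (w * s⁻¹) j ≠ 0 ∧ f = xvec s⁻¹ (w * s⁻¹) i / xvec s⁻¹ (w * s⁻¹) j}) :=
      ⟨_, rfl⟩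
    rw [← hS, eq_top_iff]
    have hs := h.s_ne
    have hx : ∀ i, xvec s⁻¹ (w * s⁻¹) i ∈ S := by
      intro i
      rw [hS]
      refine IntermediateField.subset_adjoin ℂ _ (Or.inr ⟨i, 0, one_ne_zero, ?_⟩)
      change _ = _ / (1 : K)
      rw [div_one]
    have hq : s⁻¹ ∈ S := hx 1
    have hr : w * s⁻¹ ∈ S := by
      have h1 := S.div_mem (hx 2) (pow_mem hq 15)
      have h2 : xvec s⁻¹ (w * s⁻¹) 2 / s⁻¹ ^ 15 = w * s⁻¹ := by
        change s⁻¹ ^ 15 * (w * s⁻¹) / s⁻¹ ^ 15 = _
        field_simp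
      rwa [h2] at h1
    have hC : ∀ p : ℂ[X], aeval s⁻¹ p ∈ S := by
      intro p
      induction p using Polynomial.induction_on' with
      | add p q hp hq => rw [map_add]; exact add_mem hp hq
      | monomial n c =>
        rw [← C_mul_X_pow_eq_monomial, map_mul, map_pow, aeval_X, aeval_C]
        exact mul_mem (S.algebraMap_mem c) (pow_mem hq n)
    have hev : ∀ p : ℂ[X][X], ev s⁻¹ (w * s⁻¹) p ∈ S := by
      intro p
      induction p using Polynomial.induction_on' with
      | add p q hp hq => rw [map_add]; exact add_mem hp hq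
      | monomial n c =>
        rw [← C_mul_X_pow_eq_monomial, map_mul, map_pow, ev_X, ev_C]
        exact mul_mem (hC c) (pow_mem hr n)
    intro f _
    obtain ⟨g, k, -, rfl⟩ := h.gen' f
    exact S.div_mem (hev g) (hev k)

end ff

end Pool.Agent.Y188.CN
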